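import Pool.Agent.MP_92db0f_lc_mul.Defs

/-!
The class `NE`, and polynomial-time computations with queries of bounded total length to a set in
`NP` with certificates of bounded length, with bounded memory and bounded advice, relative to an
oracle. The class `⊕P`, and parities of families of sets of strings.
-/

set_option autoImplicit false

namespace Pool.Agent.PFP

open Turing Computability Lib.helper60
open MP_92db0f_lc_alg (answers PolyTime join)

/-- The class `NE = NTIME(2^{O(n)})` relative to the oracle `O`: membership of `x` is witnessed by
certificates of length at most `2 ^ (k |x| + k)`, which a deterministic machine with the oracle `O`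
checks in time polynomial in the length of `x` and the certificate. -/
def InNE (O L : Set (List Bool)) : Prop :=
  ∃ (k : ℕ) (R : List Bool × List Bool → Prop), PolyTime encPair O R ∧
    ∀ x, x ∈ L ↔ ∃ y : List Bool, y.length ≤ 2 ^ (k * x.length + k) ∧ R (x, y)

/-- The class `⊕P` relative to the oracle `O`: membership of `x` means that the number of the
certificates of `x` is odd; certificates have polynomial length and are checked in polynomial time
with the oracle `O`. -/
def InParityP (O L : Set (List Bool)) : Prop :=
  ∃ (P : Polynomial ℕ) (R : List Bool × List Bool → Prop), PolyTime encPair O R ∧
    ∀ x, x ∈ L ↔ Odd {y : List Bool | y.length ≤ P.eval x.length ∧ R (x, y)}.ncard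

/-- The set of all strings `Q` that have a certificate `y`, i.e. `R (Q, y)` holds. -/
def Certified (R : List Bool × List Bool → Prop) : Set (List Bool) := {Q | ∃ y, R (Q, y)}

open Classical in
/-- The content of the memory after `i` rounds of a computation on the input and the advice `z`, when
`p` queries to `B` are asked in parallel in each round. If `M` is the content of the memory, then
the query with the number `j < p` is `q ((z, M), j)`, and `u ((z, M), v)` is the next content of the
memory, where `v` is the list of the answers to the queries of the round. -/
noncomputable def memory (B : Set (List Bool))
    (q : ((List Bool × List Bool) × List Bool) × ℕ → List Bool)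
    (u : ((List Bool × List Bool) × List Bool) × List Bool → List Bool)
    (z : List Bool × List Bool) (p : ℕ) : ℕ → List Bool
  | 0 => []
  | i + 1 => u ((z, memory B q u z p i),
      (List.range p).map fun j => decide (q ((z, memory B q u z p i), j) ∈ B))

/-- The charge of the query `true :: Q`, which asks whether `Q` belongs to the oracle in `NP`, is
the length of `Q`. Other queries are free of charge. -/
def charge : List Bool → ℕ
  | true :: Q => Q.length
  | _ => 0

/-- The largest charge of a query in the round `i`. -/
noncomputable def roundCharge (B : Set (List Bool))
    (q : ((List Bool × List Bool) × List Bool) × ℕ → List Bool)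
    (u : ((List Bool × List Bool) × List Bool) × List Bool → List Bool)
    (z : List Bool × List Bool) (p i : ℕ) : ℕ :=
  (Finset.range p).sup fun j => charge (q ((z, memory B q u z p i), j))

/-- The class `Q(s, t, w, α)` relative to the oracle `O`: the languages decided by deterministic
polynomial-time computations with free access to `O`, with `O(n ^ α)` bits of advice, which depend
on the length `n` of the input only, and with an oracle in `NP`, namely the set of the strings `Q`
that have a certificate. The certificates of `Q` are checked by `R`, in polynomial time with the
oracle `O`, and have length `O(|Q| ^ t)`. The computation consists of `N n` rounds, where `N` is a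
polynomial, and each round consists of `W n` parallel queries `false :: u`, which ask whether `u`
belongs to `O`, or `true :: Q`, which ask whether `Q` belongs to the oracle in `NP`. The sum over
all rounds of the length of the longest query to the oracle in `NP` is `O(n ^ s)`, and after each
round the memory contains `O(n ^ w)` bits. The functions `q`, `u` and `d`, which give the queries,
the next content of the memory and the final decision, are computed by Turing machines in time
polynomial in the length of their arguments. -/
def InQ (O : Set (List Bool)) (s t w α : ℝ) (W : Polynomial ℕ) (L : Set (List Bool)) : Prop :=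
  ∃ (R : List Bool × List Bool → Prop)
    (q : ((List Bool × List Bool) × List Bool) × ℕ → List Bool)
    (u : ((List Bool × List Bool) × List Bool) × List Bool → List Bool)
    (d : (List Bool × List Bool) × List Bool → Bool) (a : ℕ → List Bool)
    (N : Polynomial ℕ) (C : ℕ),
    PolyTime encPair O R ∧
    Nonempty (TM2ComputableInPolyTime
      (fun z : ((List Bool × List Bool) × List Bool) × ℕ =>
        encPair (encPair (encPair z.1.1, z.1.2), List.replicate z.2 true)) (fun w => w) q) ∧
    Nonempty (TM2ComputableInPolyTime
      (fun z : ((List Bool × List Bool) × List Bool) × List Bool =>
        encPair (encPair (encPair z.1.1, z.1.2), z.2)) (fun w => w) u) ∧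
    Nonempty (TM2ComputableInPolyTime
      (fun z : (List Bool × List Bool) × List Bool => encPair (encPair z.1, z.2)) encodeBool d) ∧
    (∀ Q y, R (Q, y) → (y.length : ℝ) ≤ C * (Q.length : ℝ) ^ t + C) ∧
    (∀ n : ℕ, ((a n).length : ℝ) ≤ C * (n : ℝ) ^ α + C) ∧
    ∀ x : List Bool,
      (x ∈ L ↔ d ((x, a x.length), memory (join O (Certified R)) q u (x, a x.length)
        (W.eval x.length) (N.eval x.length)) = true) ∧
      (∀ i ≤ N.eval x.length, ((memory (join O (Certified R)) q u (x, a x.length)
        (W.eval x.length) i).length : ℝ) ≤ C * (x.length : ℝ) ^ w + C) ∧
      ((∑ i ∈ Finset.range (N.eval x.length),
        roundCharge (join O (Certified R)) q u (x, a x.length) (W.eval x.length) i : ℕ) : ℝ) ≤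
          C * (x.length : ℝ) ^ s + C

open Classical in
/-- The number of the lists `M` in `F` all of whose elements belong to `A` is odd. -/
def Par (A : Set (List Bool)) (F : List (List (List Bool))) : Prop :=
  Odd (F.filter fun M => ∀ u ∈ M, u ∈ A).length

end Pool.Agent.PFP
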