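import Pool.Agent.MP_92db0f_lc_wid.Main
import Pool.Agent.MP_92db0f_lc_gold.Conv
import Pool.Agent.PFP.Defs

/-!
The lower bounds: computations whose queries have a bounded total length have few rounds with long
certificates, and the queries depend on the previous answers only through the memory.
-/

set_option autoImplicit false

namespace Pool.Agent.PFP

open Lib.helper60 Function Turing Computability
open MP_92db0f_lc hiding answers InNEXP
open MP_92db0f_lc_alg (answers PolyTime join)
open MP_92db0f_lc_gold (cost roundAnswers roundCost PT_of_strN TM_of_strN PT_of_str PT_of_bool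
  TM_of_str TM_of_bool Decides InTradeoff KL KL_mem tradeoff)
open MP_92db0f_lc_wid (InWidth)

/-! ### numbers -/

lemma rpow_le_eval {C : ℕ} {t : ℝ} (ht : 0 < t) {l m : ℕ}
    (h : (l : ℝ) ≤ C * (m : ℝ) ^ t + C) :
    l ≤ (Polynomial.C C * Polynomial.X ^ ⌈t⌉₊ + Polynomial.C C : Polynomial ℕ).eval m := by
  have h1 : (m : ℝ) ^ t ≤ (m : ℝ) ^ ⌈t⌉₊ := by
    rcases Nat.eq_zero_or_pos m with rfl | hm
    · rw [Nat.cast_zero, Real.zero_rpow ht.ne']
      positivity
    · rw [← Real.rpow_natCast]
      exact Real.rpow_le_rpow_of_exponent_le (by exact_mod_cast hm) (Nat.le_ceil t)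
  have h2 : (l : ℝ) ≤ C * (m : ℝ) ^ ⌈t⌉₊ + C := by
    have := mul_le_mul_of_nonneg_left h1 (Nat.cast_nonneg (α := ℝ) C)
    linarith
  simp only [Polynomial.eval_add, Polynomial.eval_mul, Polynomial.eval_pow, Polynomial.eval_C,
    Polynomial.eval_X]
  exact_mod_cast h2

lemma cap_bound {C n l : ℕ} {w : ℝ} (h : (l : ℝ) ≤ C * (n : ℝ) ^ w + C) :
    l ≤ (Polynomial.C C * Polynomial.X ^ ⌈w⌉₊ + Polynomial.C (2 * C) : Polynomial ℕ).eval n := by
  have h1 : (n : ℝ) ^ w ≤ (n : ℝ) ^ ⌈w⌉₊ + 1 := by
    rcases Nat.eq_zero_or_pos n with rfl | hn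
    · have h2 : ((0 : ℕ) : ℝ) ^ w ≤ 1 := by
        rw [Nat.cast_zero]
        exact Real.zero_rpow_le_one w
      have h3 : (0 : ℝ) ≤ ((0 : ℕ) : ℝ) ^ ⌈w⌉₊ := by positivity
      linarith
    · have h2 : (n : ℝ) ^ w ≤ (n : ℝ) ^ ⌈w⌉₊ := by
        rw [← Real.rpow_natCast]
        exact Real.rpow_le_rpow_of_exponent_le (by exact_mod_cast hn) (Nat.le_ceil w)
      linarith
  have h2 : (l : ℝ) ≤ C * (n : ℝ) ^ ⌈w⌉₊ + 2 * C := by
    have := mul_le_mul_of_nonneg_left h1 (Nat.cast_nonneg (α := ℝ) C)
    linarith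
  simp only [Polynomial.eval_add, Polynomial.eval_mul, Polynomial.eval_pow, Polynomial.eval_C,
    Polynomial.eval_X]
  exact_mod_cast h2

/-- the length of the shortest certificate -/
lemma cost_le {R : List Bool × List Bool → Prop} {C : ℕ} {t : ℝ}
    (hR : ∀ Q y, R (Q, y) → (y.length : ℝ) ≤ C * (charge Q : ℝ) ^ t + C) (Q : List Bool) :
    (cost R Q : ℝ) ≤ C * (charge Q : ℝ) ^ t + C := by
  unfold cost
  rcases Set.eq_empty_or_nonempty {l | ∃ c : List Bool, c.length = l ∧ R (Q, c)} with he | hne
  · rw [he, Nat.sInf_empty, Nat.cast_zero]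
    positivity
  · obtain ⟨c, hc1, hc2⟩ := Nat.sInf_mem hne
    rw [← hc1]
    exact hR Q c hc2

lemma charge_le (Q : List Bool) : charge Q ≤ Q.length := by
  rcases Q with _ | ⟨b, Q⟩
  · exact le_rfl
  · cases b
    · exact Nat.zero_le _
    · exact Nat.le_succ _

lemma rpow_bound {C n : ℕ} {s t : ℝ} (hs : 0 ≤ s) (ht : 0 < t) {y : ℝ} (hy : 0 ≤ y)
    (h : y ≤ C * (n : ℝ) ^ s + C) : y ^ t ≤ (2 * C : ℝ) ^ t * ((n : ℝ) ^ (s * t) + 1) := by
  have hC : (0 : ℝ) ≤ C := Nat.cast_nonneg C
  have h0 : (0 : ℝ) ≤ (2 * C : ℝ) ^ t := Real.rpow_nonneg (by positivity) _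
  have hX : (0 : ℝ) ≤ (n : ℝ) ^ (s * t) := Real.rpow_nonneg (Nat.cast_nonneg _) _
  rcases Nat.eq_zero_or_pos n with rfl | hn
  · have h1 : ((0 : ℕ) : ℝ) ^ s ≤ 1 := by
      rw [Nat.cast_zero]
      exact Real.zero_rpow_le_one s
    have h2 : y ≤ 2 * C := by nlinarith
    have h3 := Real.rpow_le_rpow hy h2 ht.le
    nlinarith
  · have hn' : (1 : ℝ) ≤ n := by exact_mod_cast hn
    have h1 : (1 : ℝ) ≤ (n : ℝ) ^ s := Real.one_le_rpow hn' hs
    have h2 : y ≤ 2 * C * (n : ℝ) ^ s := by nlinarith
    have h3 := Real.rpow_le_rpow hy h2 ht.le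
    rw [Real.mul_rpow (by positivity) (by positivity), ← Real.rpow_mul (by positivity)] at h3
    nlinarith

/-! ### the memory as a function of the answers -/

lemma PT_of_str' {u : ((List Bool × List Bool) × List Bool) × List Bool → List Bool}
    (h : Nonempty (TM2ComputableInPolyTime
      (fun z : ((List Bool × List Bool) × List Bool) × List Bool =>
        encPair (encPair (encPair z.1.1, z.1.2), z.2)) (fun w => w) u)) : PT u := by
  obtain ⟨F, hF, h1⟩ := exists_PT h
  exact (hF.comp (PT_encPair (PT_encPair (PT_encPair PT.fst.p1.p1 PT.fst.p1.p2) PT.fst.p2)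
    PT.snd)).congr fun z => h1 z

/-- One step of the reconstruction of the memory from the answers. The state consists of the content
of the memory, cut off at the length `c |x|`, and of the answers in the present round. Each round
has one more query than the original one. -/
def rstep (u : ((List Bool × List Bool) × List Bool) × List Bool → List Bool)
    (c W : Polynomial ℕ) (y : (List Bool × List Bool) × (List Bool × List Bool) × Bool) :
    List Bool × List Bool :=
  if y.2.1.2.length < W.eval y.1.1.length then (y.2.1.1, y.2.1.2 ++ [y.2.2])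
  else ((u ((y.1, y.2.1.1), y.2.1.2)).take (c.eval y.1.1.length), [])

/-- the content of the memory after the answers -/
def replay (u : ((List Bool × List Bool) × List Bool) × List Bool → List Bool)
    (c W : Polynomial ℕ) (y : (List Bool × List Bool) × List Bool) : List Bool × List Bool :=
  y.2.foldl (fun s b => rstep u c W (y.1, s, b)) ([], [])

/-- the query with the number `j`, and an empty query at the end of the round -/
def cutQ (W : Polynomial ℕ) (q : ((List Bool × List Bool) × List Bool) × ℕ → List Bool)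
    (y : ((List Bool × List Bool) × List Bool) × ℕ) : List Bool :=
  if y.2 < W.eval y.1.1.1.length then q y else []

/-- the queries as functions of the answers -/
def simQ (u : ((List Bool × List Bool) × List Bool) × List Bool → List Bool)
    (c W : Polynomial ℕ) (q : ((List Bool × List Bool) × List Bool) × ℕ → List Bool)
    (y : ((List Bool × List Bool) × List Bool) × ℕ) : List Bool :=
  cutQ W q ((y.1.1, (replay u c W y.1).1), y.2)

lemma simQ_of_lt (u : ((List Bool × List Bool) × List Bool) × List Bool → List Bool)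
    (c W : Polynomial ℕ) (q : ((List Bool × List Bool) × List Bool) × ℕ → List Bool)
    (z : List Bool × List Bool) (v : List Bool) {j : ℕ} (hj : j < W.eval z.1.length) :
    simQ u c W q ((z, v), j) = q ((z, (replay u c W (z, v)).1), j) :=
  if_pos hj

lemma simQ_self (u : ((List Bool × List Bool) × List Bool) × List Bool → List Bool)
    (c W : Polynomial ℕ) (q : ((List Bool × List Bool) × List Bool) × ℕ → List Bool)
    (z : List Bool × List Bool) (v : List Bool) :
    simQ u c W q ((z, v), W.eval z.1.length) = [] :=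
  if_neg (lt_irrefl _)

lemma PT_cutQ (W : Polynomial ℕ) {q : ((List Bool × List Bool) × List Bool) × ℕ → List Bool}
    (hq : PT q) : PT (cutQ W q) := by
  unfold cutQ
  exact PT.ite (PT.nlt PT.snd (PT_peval W (PT.length PT.fst.p1.p1))) hq (PT.const [])

lemma replay_le (u : ((List Bool × List Bool) × List Bool) × List Bool → List Bool)
    (c W : Polynomial ℕ) (z : List Bool × List Bool) (v : List Bool) :
    (replay u c W (z, v)).1.length ≤ c.eval z.1.length ∧
      (replay u c W (z, v)).2.length ≤ W.eval z.1.length := by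
  induction v using List.reverseRecOn with
  | nil => exact ⟨Nat.zero_le _, Nat.zero_le _⟩
  | append_singleton l b ih =>
    have h1 : replay u c W (z, l ++ [b]) = rstep u c W (z, replay u c W (z, l), b) := by
      unfold replay
      rw [List.foldl_append, List.foldl_cons, List.foldl_nil]
    rw [h1]
    unfold rstep
    dsimp only
    split_ifs with h2
    · refine ⟨ih.1, ?_⟩
      rw [List.length_append, List.length_singleton]
      exact h2
    · refine ⟨?_, Nat.zero_le _⟩
      rw [List.length_take]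
      exact min_le_left _ _

lemma PT_replay {u : ((List Bool × List Bool) × List Bool) × List Bool → List Bool} (hu : PT u)
    (c W : Polynomial ℕ) : PT (replay u c W) := by
  have hc : PT (fun z : (List Bool × List Bool) × List Bool => c.eval z.1.1.length) :=
    PT_peval c (PT.length PT.fst.p1)
  have hW : PT (fun z : (List Bool × List Bool) × List Bool => W.eval z.1.1.length) :=
    PT_peval W (PT.length PT.fst.p1)
  have h1 : PT (fun y : ((List Bool × List Bool) × List Bool) × (List Bool × List Bool) × Bool =>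
      rstep u c W (y.1.1, y.2)) := by
    unfold rstep
    dsimp only
    refine PT.ite (PT.nlt (PT.length PT.snd.p1.p2) (PT_peval W (PT.length PT.fst.p1.p1))) ?_ ?_
    · exact PT.pair PT.snd.p1.p1 (PT.append PT.snd.p1.p2 (PT.cons PT.snd.p2 (PT.const [])))
    · exact PT.pair (PT_take (PT_peval c (PT.length PT.fst.p1.p1))
        (hu.comp (PT.pair (PT.pair PT.fst.p1 PT.snd.p1.p1) PT.snd.p1.p2))) (PT.const [])
  refine PT.foldl (l := fun z : (List Bool × List Bool) × List Bool => z.2)
    (init := fun _ => (([], []) : List Bool × List Bool)) PT.snd (PT.const _) h1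
    ⟨fun z => 4 * tsize (c.eval z.1.1.length) + 1 + (4 * tsize (W.eval z.1.1.length) + 1) + 1,
      ((((PB.const 4).mul hc.size).add (PB.const 1)).add (((PB.const 4).mul hW.size).add
        (PB.const 1))).add (PB.const 1), ?_⟩
  intro z l₁ l₂ _
  have h2 := replay_le u c W z.1 l₁
  have h3 := tsize_bits_le (replay u c W (z.1, l₁)).1
  have h4 := tsize_bits_le (replay u c W (z.1, l₁)).2
  have h5 : l₁.foldl (fun s b => rstep u c W (z.1, s, b)) ([], []) = replay u c W (z.1, l₁) := rfl
  dsimp only at h5 ⊢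
  rw [h5, tsize_pair, tsize_nat, tsize_nat]
  omega

lemma foldl_rstep (u : ((List Bool × List Bool) × List Bool) × List Bool → List Bool)
    (c W : Polynomial ℕ) (z : List Bool × List Bool) (M : List Bool) (l : List Bool) :
    ∀ v : List Bool, v.length + l.length ≤ W.eval z.1.length →
      l.foldl (fun s b => rstep u c W (z, s, b)) (M, v) = (M, v ++ l) := by
  induction l with
  | nil => intro v _; rw [List.foldl_nil, List.append_nil]
  | cons b l ih =>
    intro v hv
    rw [List.length_cons] at hv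
    rw [List.foldl_cons]
    have h1 : rstep u c W (z, (M, v), b) = (M, v ++ [b]) := by
      unfold rstep
      dsimp only
      rw [if_pos (by omega)]
    rw [h1, ih (v ++ [b]) (by rw [List.length_append, List.length_singleton]; omega),
      List.append_assoc, List.singleton_append]

open Classical in
lemma replay_answers {B : Set (List Bool)}
    {q : ((List Bool × List Bool) × List Bool) × ℕ → List Bool}
    {u : ((List Bool × List Bool) × List Bool) × List Bool → List Bool} {c W : Polynomial ℕ}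
    {z : List Bool × List Bool} {N : ℕ}
    (h : ∀ i ≤ N, (memory B q u z (W.eval z.1.length) i).length ≤ c.eval z.1.length) : ∀ i ≤ N,
    replay u c W (z, roundAnswers B (simQ u c W q) z (W.eval z.1.length + 1) i) =
      (memory B q u z (W.eval z.1.length) i, []) := by
  intro i
  induction i with
  | zero => intro _; rfl
  | succ i ih =>
    intro hi
    have h1 := ih (by omega)
    rw [roundAnswers]
    have h2 : ((List.range (W.eval z.1.length + 1)).map fun j =>
        decide (simQ u c W q ((z, roundAnswers B (simQ u c W q) z (W.eval z.1.length + 1) i), j)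
          ∈ B)) = ((List.range (W.eval z.1.length)).map fun j =>
        decide (q ((z, memory B q u z (W.eval z.1.length) i), j) ∈ B)) ++
          [decide ([] ∈ B)] := by
      rw [List.range_succ, List.map_append, List.map_singleton]
      congr 1
      · refine List.map_congr_left fun j hj => ?_
        rw [List.mem_range] at hj
        rw [simQ_of_lt u c W q z _ hj, h1]
      · rw [simQ_self]
    rw [h2]
    unfold replay at h1 ⊢
    dsimp only at h1 ⊢
    rw [List.foldl_append, h1, List.foldl_append,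
      foldl_rstep u c W z _ _ [] (by
        rw [List.length_nil, List.length_map, List.length_range, Nat.zero_add]),
      List.foldl_cons, List.foldl_nil, List.nil_append]
    unfold rstep
    dsimp only
    rw [if_neg (by rw [List.length_map, List.length_range]; exact lt_irrefl _)]
    have h3 := h (i + 1) hi
    rw [memory] at h3 ⊢
    rw [List.take_of_length_le h3]

/-! ### free access to the oracle -/

open Classical in
lemma OPT_mem {O : Set (List Bool)} {h : List Bool × List Bool → List Bool} (hh : PT h) :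
    MP_92db0f_lc_gold.OPT O (fun p => decide (h p ∈ O)) :=
  ⟨fun z => h z.1, fun z => z.2.headD false, fun _ => 1, hh.comp PT.fst,
    PT.headD PT.snd (PT.const false), PT.const 1, fun _ => rfl⟩

/-- the queries to `O` as queries with empty certificates -/
lemma exists_free {O : Set (List Bool)} {R : List Bool × List Bool → Prop} {C : ℕ} {t : ℝ}
    (hR : PolyTime encPair O R)
    (hRl : ∀ Q y, R (Q, y) → (y.length : ℝ) ≤ C * (Q.length : ℝ) ^ t + C) :
    ∃ R' : List Bool × List Bool → Prop, PolyTime encPair O R' ∧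
      Certified R' = join O (Certified R) ∧
      ∀ Q y, R' (Q, y) → (y.length : ℝ) ≤ C * (charge Q : ℝ) ^ t + C := by
  classical
  obtain ⟨f, hf, hRf⟩ := MP_92db0f_lc_gold.exists_OPT hR
  have h1 : MP_92db0f_lc_gold.OPT O (fun p : List Bool × List Bool =>
      (p.1.headD false && f (p.1.tail, p.2)) ||
        ((!p.1.headD true && decide (p.2.length = 0)) && decide (p.1.tail ∈ O))) := by
    refine MP_92db0f_lc_gold.OPT.bor (MP_92db0f_lc_gold.OPT.band
      (MP_92db0f_lc_gold.OPT.of_PT (PT.headD PT.fst (PT.const false)))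
      (hf.comp_PT (PT.pair (PT.tail PT.fst) PT.snd))) (MP_92db0f_lc_gold.OPT.band
      (MP_92db0f_lc_gold.OPT.of_PT (PT.band (PT.bnot (PT.headD PT.fst (PT.const true)))
        (PT.isZero (PT.length PT.snd)))) (OPT_mem (PT.tail PT.fst)))
  refine ⟨_, h1.polyTime, ?_, ?_⟩
  · ext Q
    rcases Q with _ | ⟨b, Q⟩
    · simp [Certified, join]
    · cases b
      · simp [Certified, join]
      · simp [Certified, join, hRf]
  · intro Q y h
    have hC : (0 : ℝ) ≤ C := Nat.cast_nonneg C
    rcases Q with _ | ⟨b, Q⟩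
    · simp at h
    · cases b
      · simp only [List.headD_cons, Bool.false_and, Bool.false_or, Bool.not_false, Bool.true_and,
          Bool.and_eq_true, decide_eq_true_eq] at h
        rw [h.1, Nat.cast_zero]
        positivity
      · simp only [List.headD_cons, List.tail_cons, Bool.true_and, Bool.not_true, Bool.false_and,
          Bool.or_false] at h
        exact hRl Q y ((hRf _).2 h)

/-! ### the computation as a computation without memory -/

theorem InQ.exists_sim {O L : Set (List Bool)} {s t w α : ℝ} (ht : 0 < t)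
    {V : Polynomial ℕ} (h : InQ O s t w α V L) :
    ∃ (R : List Bool × List Bool → Prop)
      (q : ((List Bool × List Bool) × List Bool) × ℕ → List Bool)
      (S : (List Bool × List Bool) × List Bool → List Bool)
      (d : (List Bool × List Bool) × List Bool → Bool) (a : ℕ → List Bool) (N : ℕ → ℕ)
      (W P : Polynomial ℕ) (C : ℕ),
      Decides O L R (fun y => q ((y.1.1, S y.1), y.2)) d a N W P ∧ PT q ∧ PT S ∧
      (∀ n : ℕ, ((a n).length : ℝ) ≤ C * (n : ℝ) ^ α + C) ∧
      ∀ x : List Bool, ∃ l : ℕ → ℕ,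
        (∀ i < N x.length,
          (roundCost R (fun y => q ((y.1.1, S y.1), y.2)) (x, a x.length) (W.eval x.length) i
            : ℝ) ≤ C * (l i : ℝ) ^ t + C ∧
          ((S ((x, a x.length), roundAnswers (MP_92db0f_lc_gold.Certified R)
            (fun y => q ((y.1.1, S y.1), y.2)) (x, a x.length) (W.eval x.length) i)).length : ℝ)
              ≤ C * (x.length : ℝ) ^ w + C) ∧
        ((∑ i ∈ Finset.range (N x.length), l i : ℕ) : ℝ) ≤ C * (x.length : ℝ) ^ s + C := by
  classical
  obtain ⟨W, hW⟩ : ∃ W, W = V := ⟨_, rfl⟩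
  rw [← hW] at h
  obtain ⟨R₀, q, u, d, a, N, C, hR₀, hq, hu, hd, hRl₀, ha, hx⟩ := h
  obtain ⟨R, hR, hRj, hRl⟩ := exists_free hR₀ hRl₀
  rw [← hRj] at hx
  have hq' := PT_of_strN hq
  have hu' := PT_of_str' hu
  have hd' := PT_of_bool hd
  obtain ⟨c, hc⟩ : ∃ c, c = (Polynomial.C C * Polynomial.X ^ ⌈w⌉₊ + Polynomial.C (2 * C) :
    Polynomial ℕ) := ⟨_, rfl⟩
  have hm := PT_replay hu' c W
  have hrep : ∀ x : List Bool, ∀ i ≤ N.eval x.length,
      replay u c W ((x, a x.length), roundAnswers (MP_92db0f_lc_gold.Certified R)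
        (simQ u c W q) (x, a x.length) (W.eval x.length + 1) i) =
      (memory (Certified R) q u (x, a x.length) (W.eval x.length) i, []) := by
    intro x
    refine replay_answers (z := (x, a x.length)) fun i hi => ?_
    rw [hc]
    exact cap_bound ((hx x).2.1 i hi)
  have hS : PT (fun y : (List Bool × List Bool) × List Bool => (replay u c W y).1) := hm.p1
  have hcq := PT_cutQ W hq'
  refine ⟨R, cutQ W q, fun y => (replay u c W y).1, fun y => d (y.1, (replay u c W y).1), a,
    fun n => N.eval n, W + 1, N + (Polynomial.C C * Polynomial.X ^ ⌈t⌉₊ + Polynomial.C C), C,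
    ⟨hR, ?_, TM_of_strN (hcq.comp (PT.pair (PT.pair PT.fst.p1 (hS.comp PT.fst)) PT.snd)),
      TM_of_bool (hd'.comp (PT.pair PT.fst hS)), ?_, ?_⟩, hcq, hS, ha, ?_⟩
  · intro Q y hy
    rw [Polynomial.eval_add]
    have h1 := Real.rpow_le_rpow (Nat.cast_nonneg (α := ℝ) _)
      (Nat.cast_le (α := ℝ).2 (charge_le Q)) ht.le
    have h2 := mul_le_mul_of_nonneg_left h1 (Nat.cast_nonneg (α := ℝ) C)
    have h3 : (y.length : ℝ) ≤ C * (Q.length : ℝ) ^ t + C := by linarith [hRl Q y hy]
    exact (rpow_le_eval ht h3).trans (Nat.le_add_left _ _)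
  · intro n
    rw [Polynomial.eval_add]
    exact Nat.le_add_right _ _
  · intro x
    rw [Polynomial.eval_add, Polynomial.eval_one]
    have h1 := hrep x (N.eval x.length) le_rfl
    have h2 : (replay u c W ((x, a x.length), roundAnswers (MP_92db0f_lc_gold.Certified R)
        (fun y => cutQ W q ((y.1.1, (replay u c W y.1).1), y.2)) (x, a x.length)
          (W.eval x.length + 1) (N.eval x.length))).1 =
      memory (Certified R) q u (x, a x.length) (W.eval x.length) (N.eval x.length) :=
      congrArg Prod.fst h1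
    dsimp only at h2 ⊢
    rw [h2]
    exact (hx x).1
  · intro x
    refine ⟨roundCharge (Certified R) q u (x, a x.length) (W.eval x.length), ?_, (hx x).2.2⟩
    intro i hi
    have h1 := hrep x i hi.le
    have h2 : (replay u c W ((x, a x.length), roundAnswers (MP_92db0f_lc_gold.Certified R)
        (fun y => cutQ W q ((y.1.1, (replay u c W y.1).1), y.2)) (x, a x.length)
          (W.eval x.length + 1) i)).1 =
      memory (Certified R) q u (x, a x.length) (W.eval x.length) i :=
      congrArg Prod.fst h1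
    rw [Polynomial.eval_add, Polynomial.eval_one]
    dsimp only at h2 ⊢
    refine ⟨?_, ?_⟩
    · unfold roundCost
      obtain ⟨j, hj, hj'⟩ := Finset.exists_mem_eq_sup (Finset.range (W.eval x.length + 1))
        ⟨0, Finset.mem_range.2 (Nat.succ_pos _)⟩ (fun j => cost R (cutQ W q (((x, a x.length),
          (replay u c W ((x, a x.length), roundAnswers (MP_92db0f_lc_gold.Certified R)
            (fun y => cutQ W q ((y.1.1, (replay u c W y.1).1), y.2)) (x, a x.length)
              (W.eval x.length + 1) i)).1), j)))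
      dsimp only at hj' ⊢
      rw [hj', h2]
      refine (cost_le hRl _).trans ?_
      have h3 : charge (cutQ W q (((x, a x.length),
          memory (Certified R) q u (x, a x.length) (W.eval x.length) i), j)) ≤
          roundCharge (Certified R) q u (x, a x.length) (W.eval x.length) i := by
        unfold cutQ
        dsimp only
        split_ifs with h4
        · unfold roundCharge
          exact Finset.le_sup (f := fun j => charge (q (((x, a x.length),
            memory (Certified R) q u (x, a x.length) (W.eval x.length) i), j)))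
            (Finset.mem_range.2 h4)
        · exact Nat.zero_le _
      have h4 := Real.rpow_le_rpow (Nat.cast_nonneg (α := ℝ) _)
        (Nat.cast_le (α := ℝ).2 h3) ht.le
      have h5 := mul_le_mul_of_nonneg_left h4 (Nat.cast_nonneg (α := ℝ) C)
      linarith
    · rw [h2]
      exact (hx x).2.1 i hi.le

/-! ### the classes -/

/-- the queries have few rounds with long certificates -/
theorem InQ.inTradeoff {O L : Set (List Bool)} {s t w α δ : ℝ} {V : Polynomial ℕ} (hs : 0 ≤ s)
    (ht : 0 < t) (h : InQ O s t w α V L) : InTradeoff O (s * t) (max (s - δ / t) α) δ L := by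
  classical
  obtain ⟨R, q, S, d, a, N, W, P, C, hD, hq, hS, ha, hx⟩ := h.exists_sim ht
  obtain ⟨C₁, hC₁⟩ := exists_nat_ge (C * (2 * C : ℝ) ^ t)
  obtain ⟨K, hK⟩ : ∃ K, K = C₁ + 2 * C + N 0 := ⟨_, rfl⟩
  have hC0 : (0 : ℝ) ≤ C := Nat.cast_nonneg C
  have hN0 : (0 : ℝ) ≤ N 0 := Nat.cast_nonneg _
  have hC10 : (0 : ℝ) ≤ C₁ := Nat.cast_nonneg _
  have hKe : (K : ℝ) = C₁ + 2 * C + N 0 := by
    rw [hK]
    push_cast
    ring
  refine ⟨R, _, d, a, N, W, P, K, hD, ?_, ?_⟩
  · intro n
    rcases Nat.eq_zero_or_pos n with h0 | h0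
    · subst h0
      have h1 := ha 0
      have h2 : ((0 : ℕ) : ℝ) ^ α ≤ 1 := by
        rw [Nat.cast_zero]
        exact Real.zero_rpow_le_one α
      have h3 : (0 : ℝ) ≤ ((0 : ℕ) : ℝ) ^ (max (s - δ / t) α) := Real.rpow_nonneg (by simp) _
      have h4 : (0 : ℝ) ≤ K * ((0 : ℕ) : ℝ) ^ (max (s - δ / t) α) := by positivity
      nlinarith
    · have hn' : (1 : ℝ) ≤ n := by exact_mod_cast h0
      have h1 := ha n
      have h2 : (n : ℝ) ^ α ≤ (n : ℝ) ^ (max (s - δ / t) α) :=
        Real.rpow_le_rpow_of_exponent_le hn' (le_max_right _ _)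
      have h3 : (C : ℝ) * (n : ℝ) ^ α ≤ K * (n : ℝ) ^ (max (s - δ / t) α) :=
        mul_le_mul (by linarith) h2 (Real.rpow_nonneg (by linarith) _) (Nat.cast_nonneg _)
      linarith
  · intro x
    obtain ⟨l, hl, hsum⟩ := hx x
    obtain ⟨n, hn⟩ : ∃ n, n = x.length := ⟨_, rfl⟩
    rw [← hn] at hl hsum ⊢
    obtain ⟨cc, hcc⟩ : ∃ cc : ℕ → ℕ, cc = fun i =>
      roundCost R (fun y => q ((y.1.1, S y.1), y.2)) (x, a n) (W.eval n) i := ⟨_, rfl⟩
    have hce : ∀ i, roundCost R (fun y => q ((y.1.1, S y.1), y.2)) (x, a n) (W.eval n) i =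
      cc i := fun i => by rw [hcc]
    have hcl : ∀ i < N n, (cc i : ℝ) ≤ C * (l i : ℝ) ^ t + C := by
      intro i hi
      rw [← hce]
      exact (hl i hi).1
    simp only [hce]
    have hlT : ∀ i < N n, (l i : ℝ) ≤ C * (n : ℝ) ^ s + C := by
      intro i hi
      have h1 : l i ≤ ∑ j ∈ Finset.range (N n), l j :=
        Finset.single_le_sum (fun _ _ => Nat.zero_le _) (Finset.mem_range.2 hi)
      exact (show (l i : ℝ) ≤ ((∑ j ∈ Finset.range (N n), l j : ℕ) : ℝ) by
        exact_mod_cast h1).trans hsum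
    constructor
    · intro i hi
      have h1 := rpow_bound hs ht (Nat.cast_nonneg (l i)) (hlT i hi)
      have h2 := hcl i hi
      have h3 : (0 : ℝ) ≤ (n : ℝ) ^ (s * t) := Real.rpow_nonneg (Nat.cast_nonneg _) _
      have h4 : C * (l i : ℝ) ^ t ≤ C₁ * ((n : ℝ) ^ (s * t) + 1) := by
        calc C * (l i : ℝ) ^ t ≤ C * ((2 * C : ℝ) ^ t * ((n : ℝ) ^ (s * t) + 1)) :=
              mul_le_mul_of_nonneg_left h1 hC0
          _ = C * (2 * C : ℝ) ^ t * ((n : ℝ) ^ (s * t) + 1) := by ring
          _ ≤ C₁ * ((n : ℝ) ^ (s * t) + 1) :=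
              mul_le_mul_of_nonneg_right hC₁ (by positivity)
      have h5 : (C₁ : ℝ) * (n : ℝ) ^ (s * t) ≤ K * (n : ℝ) ^ (s * t) :=
        mul_le_mul_of_nonneg_right (by linarith) h3
      linarith
    · obtain ⟨T, hT⟩ : ∃ T : Finset ℕ, T = (Finset.range (N n)).filter fun i =>
        (K : ℝ) * (n : ℝ) ^ δ + K < (cc i : ℝ) := ⟨_, rfl⟩
      have hTT : {i | i < N n ∧ (K : ℝ) * (n : ℝ) ^ δ + K < (cc i : ℝ)} = (T : Set ℕ) := by
        ext i
        rw [hT]
        simp
      rw [hTT, Set.ncard_coe_finset]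
      rcases Nat.eq_zero_or_pos n with h0 | h0
      · subst h0
        have h1 : T.card ≤ N 0 := by
          rw [hT]
          refine (Finset.card_filter_le _ _).trans ?_
          rw [Finset.card_range]
        have h2 : (T.card : ℝ) ≤ N 0 := by exact_mod_cast h1
        have h3 : (0 : ℝ) ≤ ((0 : ℕ) : ℝ) ^ (max (s - δ / t) α) := Real.rpow_nonneg (by simp) _
        have h4 : (0 : ℝ) ≤ K * ((0 : ℕ) : ℝ) ^ (max (s - δ / t) α) := by positivity
        linarith
      · have hn' : (1 : ℝ) ≤ n := by exact_mod_cast h0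
        have hn0 : (0 : ℝ) < n := by linarith
        have hy0 : 0 < (n : ℝ) ^ (δ / t) := Real.rpow_pos_of_pos hn0 _
        have hTl : ∀ i ∈ T, (n : ℝ) ^ (δ / t) ≤ l i := by
          intro i hi
          rw [hT, Finset.mem_filter, Finset.mem_range] at hi
          by_contra hlt
          rw [not_le] at hlt
          have h1 : (l i : ℝ) ^ t ≤ (n : ℝ) ^ δ := by
            have h2 := Real.rpow_le_rpow (Nat.cast_nonneg _) hlt.le ht.le
            rwa [← Real.rpow_mul hn0.le, div_mul_cancel₀ _ ht.ne'] at h2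
          have h2 := hcl i hi.1
          have h3 : (0 : ℝ) ≤ (n : ℝ) ^ δ := Real.rpow_nonneg hn0.le _
          have h4 : (C : ℝ) * (l i : ℝ) ^ t ≤ K * (n : ℝ) ^ δ :=
            mul_le_mul (by linarith) h1 (Real.rpow_nonneg (Nat.cast_nonneg _) _)
              (Nat.cast_nonneg _)
          linarith [hi.2]
        have h1 : (T.card : ℝ) * (n : ℝ) ^ (δ / t) ≤ C * (n : ℝ) ^ s + C := by
          calc (T.card : ℝ) * (n : ℝ) ^ (δ / t) = ∑ _i ∈ T, (n : ℝ) ^ (δ / t) := by
                rw [Finset.sum_const, nsmul_eq_mul]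
            _ ≤ ∑ i ∈ T, (l i : ℝ) := Finset.sum_le_sum hTl
            _ ≤ ∑ i ∈ Finset.range (N n), (l i : ℝ) := by
                refine Finset.sum_le_sum_of_subset_of_nonneg ?_ fun _ _ _ => Nat.cast_nonneg _
                rw [hT]
                exact Finset.filter_subset _ _
            _ = ((∑ i ∈ Finset.range (N n), l i : ℕ) : ℝ) := by push_cast; rfl
            _ ≤ _ := hsum
        have h2 : (n : ℝ) ^ (s - δ / t) * (n : ℝ) ^ (δ / t) = (n : ℝ) ^ s := by
          rw [← Real.rpow_add hn0]
          congr 1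
          ring
        have h3 : (1 : ℝ) ≤ (n : ℝ) ^ s := Real.one_le_rpow hn' hs
        have h4 : (n : ℝ) ^ (s - δ / t) ≤ (n : ℝ) ^ (max (s - δ / t) α) :=
          Real.rpow_le_rpow_of_exponent_le hn' (le_max_left _ _)
        have h5 : (T.card : ℝ) * (n : ℝ) ^ (δ / t) ≤
            (K * (n : ℝ) ^ (s - δ / t)) * (n : ℝ) ^ (δ / t) := by
          rw [mul_assoc, h2]
          nlinarith
        have h6 := le_of_mul_le_mul_right h5 hy0
        have h7 := mul_le_mul_of_nonneg_left h4 (Nat.cast_nonneg (α := ℝ) K)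
        linarith [Nat.cast_nonneg (α := ℝ) K]

/-- the queries depend on the answers only through the memory -/
theorem InQ.inWidth {O L : Set (List Bool)} {s t w α : ℝ} {V : Polynomial ℕ} (hs : 0 ≤ s)
    (ht : 0 < t) (h : InQ O s t w α V L) : InWidth O (s * t) w α 0 L := by
  classical
  obtain ⟨R, q, S, d, a, N, W, P, C, hD, hq, hS, ha, hx⟩ := h.exists_sim ht
  obtain ⟨C₁, hC₁⟩ := exists_nat_ge (C * (2 * C : ℝ) ^ t)
  obtain ⟨K, hK⟩ : ∃ K, K = C₁ + C := ⟨_, rfl⟩
  have hC0 : (0 : ℝ) ≤ C := Nat.cast_nonneg C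
  have hC10 : (0 : ℝ) ≤ C₁ := Nat.cast_nonneg _
  have hKe : (K : ℝ) = C₁ + C := by
    rw [hK]
    push_cast
    ring
  have hup : ∀ (n : ℕ) (e : ℝ), (C : ℝ) * (n : ℝ) ^ e + C ≤ K * (n : ℝ) ^ e + K := by
    intro n e
    have h1 : (0 : ℝ) ≤ (n : ℝ) ^ e := Real.rpow_nonneg (Nat.cast_nonneg _) _
    have h2 := mul_le_mul_of_nonneg_right (show (C : ℝ) ≤ K by linarith) h1
    linarith
  refine ⟨R, _, q, S, d, a, N, W, P, K, hD, TM_of_strN hq, TM_of_str hS,
    fun n => (ha n).trans (hup n α), fun x i hi => ?_⟩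
  obtain ⟨l, hl, hsum⟩ := hx x
  refine ⟨?_, (hl i hi).2.trans (hup _ _), fun j _ _ => rfl⟩
  refine (hl i hi).1.trans ?_
  have h0 : (l i : ℝ) ≤ C * (x.length : ℝ) ^ s + C := by
    have h1 : l i ≤ ∑ j ∈ Finset.range (N x.length), l j :=
      Finset.single_le_sum (fun _ _ => Nat.zero_le _) (Finset.mem_range.2 hi)
    exact (show (l i : ℝ) ≤ ((∑ j ∈ Finset.range (N x.length), l j : ℕ) : ℝ) by
      exact_mod_cast h1).trans hsum
  have h1 := rpow_bound hs ht (Nat.cast_nonneg (l i)) h0
  have h3 : (0 : ℝ) ≤ (x.length : ℝ) ^ (s * t) := Real.rpow_nonneg (Nat.cast_nonneg _) _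
  have h4 : C * (l i : ℝ) ^ t ≤ C₁ * ((x.length : ℝ) ^ (s * t) + 1) := by
    calc C * (l i : ℝ) ^ t ≤ C * ((2 * C : ℝ) ^ t * ((x.length : ℝ) ^ (s * t) + 1)) :=
          mul_le_mul_of_nonneg_left h1 hC0
      _ = C * (2 * C : ℝ) ^ t * ((x.length : ℝ) ^ (s * t) + 1) := by ring
      _ ≤ C₁ * ((x.length : ℝ) ^ (s * t) + 1) := mul_le_mul_of_nonneg_right hC₁ (by positivity)
  have h5 : (C₁ : ℝ) * (x.length : ℝ) ^ (s * t) ≤ K * (x.length : ℝ) ^ (s * t) :=
    mul_le_mul_of_nonneg_right (by linarith) h3
  linarith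

/-- **The lower bound** for the complete problem. -/
theorem lower_KL (O : Set (List Bool)) {s t w α : ℝ} (hs : 1 ≤ s) (hst : 1 ≤ s * t)
    (hα : s * t * α < 1) (h : s ^ 2 * t < 1 + s ∨ s * t * w < 1) (W : Polynomial ℕ) :
    ¬ InQ O s t w α W (KL O) := by
  intro hQ
  have hs0 : 0 < s := by linarith
  have ht0 : 0 < t := by
    by_contra hn
    rw [not_lt] at hn
    nlinarith
  rcases h with h | h
  · obtain ⟨e, he⟩ : ∃ e, e = (s ^ 2 * t - 1) / s := ⟨_, rfl⟩
    have h1 : e * s = s ^ 2 * t - 1 := by rw [he]; exact div_mul_cancel₀ _ hs0.ne'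
    have h2 : e < 1 := by
      by_contra hn
      rw [not_lt] at hn
      nlinarith
    have h4 := hQ.inTradeoff (δ := (e + 1) / 2) hs0.le ht0
    refine tradeoff O hst ?_ (by linarith) h4
    have h5 : s * t * (s - (e + 1) / 2 / t) = s ^ 2 * t - s * ((e + 1) / 2) := by
      field_simp
    rcases max_choice (s - (e + 1) / 2 / t) α with h6 | h6 <;> rw [h6]
    · rw [h5]
      nlinarith
    · exact hα
  · exact MP_92db0f_lc_wid.lower O hst h hα (by norm_num) (hQ.inWidth hs0.le ht0)

/-- **The lower bound.** -/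
theorem lower (O : Set (List Bool)) : ∃ L : Set (List Bool), InNE O L ∧
    ∀ s t w α : ℝ, 1 ≤ s → 1 ≤ s * t → s * t * α < 1 →
      (s ^ 2 * t < 1 + s ∨ s * t * w < 1) → ∀ W, ¬ InQ O s t w α W L :=
  ⟨KL O, KL_mem O, fun _ _ _ _ hs hst hα h W => lower_KL O hs hst hα h W⟩

end Pool.Agent.PFP
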