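import Pool.Agent.PFP.Limit
import Pool.Agent.PFP.Sys

/-!
An oracle relative to which `NE` is decided with short queries and short certificates.
-/

set_option autoImplicit false

namespace Pool.Agent.PFP

open Turing Computability Lib.helper60 MP_92db0f_lc_alg
open MP_92db0f_lc hiding answers InNEXP
open MP_92db0f_lc_thr (cls Dg sb hs Off lg rtc pcf τf PT_cls PT_τf PT_lg PT_rtc lg_eq lt_τf lg_spec
  Off_mono Off_succ two_pow_τf two_pow_τf_pow τf_iff le_pcf pcf_pow_le cls_bounds le_rtc hs_take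
  length_hs_Dg length_sb answers_getD exists_machN NAcc two_pow_lt)

/-! ### the oracle in NP -/

lemma mem_Phi_false {lam : List Bool → Pol} (hlam : ∀ w, lam (false :: w) = MvPolynomial.X w)
    (A : Set (List Bool)) (w : List Bool) : false :: w ∈ Phi lam A ↔ w ∈ A := by
  change val A (lam (false :: w)) = 1 ↔ w ∈ A
  rw [hlam]
  unfold val ind
  rw [MvPolynomial.eval_X]
  by_cases h : w ∈ A
  · rw [if_pos h]
    exact iff_of_true rfl h
  · rw [if_neg h]
    exact iff_of_false (by decide) h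

/-- the certificate condition -/
def rR (p q : ℕ) (B : Set (List Bool)) (z : List Bool × List Bool) : Prop :=
  z.2.length = clf p q z.1 ∧ false :: encPair z ∈ B

lemma PT_clf {α : Type} [DEnc α] (p q : ℕ) {z : α → List Bool} (hz : PT z) :
    PT (fun x => clf p q (z x)) :=
  PT_rtc q (PT.const 1) (PT_npow (PT.length hz) p)

lemma PT_pd' {α : Type} [DEnc α] (p q : ℕ) {x : α → ℕ} (hx : PT x) :
    PT (fun z => pd p q (x z)) :=
  PT.nsucc (PT_rtc p (PT.const 1) (PT_npow hx q))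

theorem polyTime_rR (p q : ℕ) (B : Set (List Bool)) : PolyTime encPair B (rR p q B) := by
  have h1 : PT (fun w : List Bool => unpair (unpair w).1) := PT_unpair.comp PT_unpair.p1
  refine ⟨fun z => false :: encPair z.1, fun z => decide (z.1.2.length = clf p q z.1.1) &&
    z.2.headD false, 1, ?_, ?_, ?_⟩
  · refine PT.toTM2 (F := fun w => false :: encPair (unpair (unpair w).1)) ?_ ?_
    · exact PT.cons (PT.const false) (PT_encPair h1.p1 h1.p2)
    · intro a
      simp only [unpair_enc]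
  · refine PT.decider (F := fun w => decide ((unpair (unpair w).1).2.length =
      clf p q (unpair (unpair w).1).1) && (unpair w).2.headD false) ?_ ?_
    · exact PT.band (PT.neq (PT.length h1.p2) (PT_clf p q h1.p1))
        (PT.headD PT_unpair.p2 (PT.const false))
    · intro a
      simp only [unpair_enc]
  · rintro ⟨x, y⟩
    simp [answers, rR]

/-! ### real exponents -/

lemma root_le {a b : ℕ} (ha : 1 ≤ a) {y c x : ℝ} (hc : 0 ≤ c) (hx : 0 ≤ x)
    (h : y ^ a ≤ c ^ a * x ^ b) : y ≤ c * x ^ ((b : ℝ) / a) := by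
  have h0 : 0 ≤ c * x ^ ((b : ℝ) / a) := mul_nonneg hc (Real.rpow_nonneg hx _)
  have h1 : (x ^ ((b : ℝ) / a)) ^ a = x ^ b := by
    rw [← Real.rpow_natCast, ← Real.rpow_mul hx, div_mul_cancel₀, Real.rpow_natCast]
    have : (a : ℝ) ≠ 0 := by exact_mod_cast (by omega : a ≠ 0)
    exact this
  refine le_of_not_gt fun hlt => ?_
  have h2 : (c * x ^ ((b : ℝ) / a)) ^ a < y ^ a := pow_lt_pow_left₀ hlt h0 (by omega)
  rw [mul_pow, h1] at h2
  exact absurd h h2.not_ge

lemma rtc_le {q : ℕ} (hq : 1 ≤ q) (p x : ℕ) :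
    (rtc q 1 (x ^ p) : ℝ) ≤ (x : ℝ) ^ ((p : ℝ) / q) := by
  have h : rtc q 1 (x ^ p) ^ q ≤ x ^ p := by
    have h := (le_rtc hq (le_refl 1) (x := x ^ p)).1 (le_refl (rtc q 1 (x ^ p)))
    rwa [one_mul] at h
  have h1 : (rtc q 1 (x ^ p) : ℝ) ^ q ≤ (1 : ℝ) ^ q * (x : ℝ) ^ p := by
    rw [one_pow, one_mul]
    exact_mod_cast h
  have h2 := root_le hq zero_le_one (Nat.cast_nonneg x) h1
  rwa [one_mul] at h2

/-- the bound of the certificates -/
theorem clf_le {p q : ℕ} (hq : 1 ≤ q) (hp : 1 ≤ p) (z : List Bool) {t : ℝ}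
    (ht : (p : ℝ) / q ≤ t) : (clf p q z : ℝ) ≤ (z.length : ℝ) ^ t + 1 := by
  have h1 : (clf p q z : ℝ) ≤ (z.length : ℝ) ^ ((p : ℝ) / q) := rtc_le hq p z.length
  rcases Nat.eq_zero_or_pos z.length with h | h
  · have h2 : (0 : ℝ) < (p : ℝ) / q := by
      have h3 : (0 : ℝ) < p := by exact_mod_cast hp
      have h4 : (0 : ℝ) < q := by exact_mod_cast hq
      positivity
    rw [h, Nat.cast_zero, Real.zero_rpow h2.ne'] at h1
    have h3 : (0 : ℝ) ≤ (z.length : ℝ) ^ t := Real.rpow_nonneg (Nat.cast_nonneg _) _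
    linarith
  · have h2 : (z.length : ℝ) ^ ((p : ℝ) / q) ≤ (z.length : ℝ) ^ t :=
      Real.rpow_le_rpow_of_exponent_le (by exact_mod_cast h) ht
    linarith

lemma pd_le {p q : ℕ} (hp : 1 ≤ p) {x : ℕ} {c y : ℝ} (hc : 0 ≤ c) (hy : 1 ≤ y)
    (hx : (x : ℝ) ≤ c * y) :
    (pd p q x : ℝ) ≤ (c ^ ((q : ℝ) / p) + 1) * y ^ ((q : ℝ) / p) := by
  have he : (0 : ℝ) ≤ (q : ℝ) / p := by positivity
  have h1 : (rtc p 1 (x ^ q) : ℝ) ≤ (x : ℝ) ^ ((q : ℝ) / p) := rtc_le hp q x
  have h2 : (x : ℝ) ^ ((q : ℝ) / p) ≤ (c * y) ^ ((q : ℝ) / p) :=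
    Real.rpow_le_rpow (Nat.cast_nonneg _) hx he
  rw [Real.mul_rpow hc (by linarith)] at h2
  have h4 : (1 : ℝ) ≤ y ^ ((q : ℝ) / p) := Real.one_le_rpow hy he
  unfold pd
  push_cast
  linarith

lemma sum_profile (f : ℕ → ℝ) {K : ℕ} {c d : ℝ} (h1 : ∀ i < K, f i ≤ c)
    (h2 : f K ≤ d) : ∑ i ∈ Finset.range (K + 1), f i ≤ K * c + d := by
  rw [Finset.sum_range_succ]
  have h6 : ∑ i ∈ Finset.range K, f i ≤ K * c := by
    have h7 := Finset.sum_le_card_nsmul (Finset.range K) f c fun i hi =>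
      h1 i (Finset.mem_range.1 hi)
    rwa [Finset.card_range, nsmul_eq_mul] at h7
  linarith

/-- the level of the input in terms of its length -/
lemma level_pow_le {k n : ℕ} {X w : ℝ} (hX : X = ((k * (n + 1) : ℕ) : ℝ) + 1) (hw : 0 ≤ w) :
    X ^ w ≤ (2 * ((k : ℝ) + 1)) ^ w * ((n : ℝ) ^ w + 1) := by
  have hk0 : (0 : ℝ) ≤ k := Nat.cast_nonneg k
  have hn0 : (0 : ℝ) ≤ (n : ℝ) := Nat.cast_nonneg _
  have hk2 : (0 : ℝ) ≤ (2 * ((k : ℝ) + 1)) ^ w := by positivity
  have hX1 : (0 : ℝ) ≤ X := by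
    rw [hX]
    positivity
  have h12 : X ≤ ((k : ℝ) + 1) * ((n : ℝ) + 1) := by
    rw [hX]
    push_cast
    nlinarith
  rcases Nat.eq_zero_or_pos n with hx | hx
  · rw [hx] at h12 ⊢
    have h13 : X ≤ 2 * ((k : ℝ) + 1) := by
      rw [Nat.cast_zero] at h12
      linarith
    have h14 : X ^ w ≤ (2 * ((k : ℝ) + 1)) ^ w := Real.rpow_le_rpow hX1 h13 hw
    have h15 : (0 : ℝ) ≤ (((0 : ℕ) : ℝ)) ^ w := Real.rpow_nonneg (Nat.cast_nonneg _) _
    nlinarith
  · have hx1 : (1 : ℝ) ≤ (n : ℝ) := by exact_mod_cast hx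
    have h13 : X ≤ (2 * ((k : ℝ) + 1)) * (n : ℝ) := by nlinarith
    have h14 : X ^ w ≤ ((2 * ((k : ℝ) + 1)) * (n : ℝ)) ^ w := Real.rpow_le_rpow hX1 h13 hw
    rw [Real.mul_rpow (by positivity) hn0] at h14
    nlinarith

/-! ### the machine -/

/-- the next query: binary search for the counters of the classes below `τ`, and then the state of
the requirement -/
def mq (a b p q e κ : ℕ) (z : List Bool × List Bool) : List Bool :=
  bif decide (lg z.2.length < τf a b (κ * (z.1.length + 1))) then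
    encPair (List.replicate (pd p q (5 * rtc b 1 (4 ^ b *
      (p2 ((κ * (z.1.length + 1)) ^ b) (lg z.2.length * a) + 1)) + 10)) true,
      false :: encPair (List.replicate (lg z.2.length) true,
        z.2.drop (10 * p2 z.2.length (lg z.2.length))))
  else bif decide (z.2.length = 10 * p2 (κ * (z.1.length + 1)) (τf a b (κ * (z.1.length + 1))))
    then encPair (List.replicate (pd p q (5 * rtc b 1 (4 ^ b *
      (p2 ((κ * (z.1.length + 1) + 1) ^ a) (cls (κ * (z.1.length + 1)) * a) + 1)) + 10)) true,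
      true :: encPair (List.replicate e true, encPair (z.1, z.2)))
  else []

/-- the decision -/
def md (a b κ : ℕ) (z : List Bool × List Bool) : Bool :=
  z.2.getD (10 * p2 (κ * (z.1.length + 1)) (τf a b (κ * (z.1.length + 1)))) false

section

variable {a b p q : ℕ}

lemma PT_mq (e κ : ℕ) : PT (mq a b p q e κ) := by
  have x : PT (fun z : List Bool × List Bool => z.1) := PT.fst
  have m : PT (fun z : List Bool × List Bool => κ * (z.1.length + 1)) :=
    PT.nmul (PT.const κ) (PT.nsucc (PT.length x))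
  have l : PT (fun z : List Bool × List Bool => z.2.length) := PT.length PT.snd
  have g := PT_lg l
  have τ := PT_τf (a := a) (b := b) m
  refine PT.cond (PT.nlt g τ) (PT_encPair (PT.replicate
    (PT_pd' p q (PT.nadd (PT.nmul (PT.const 5) (PT_rtc b (PT.const 1)
    (PT.nmul (PT.const _) (PT.nsucc (PT_p2 (PT_npow m b) (PT.nmul g (PT.const a)))))))
    (PT.const 10))) (PT.const true)) (PT.cons (PT.const false) (PT_encPair
    (PT.replicate g (PT.const true)) (PT.drop (PT.nmul (PT.const 10) (PT_p2 l g)) PT.snd)))) ?_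
  refine PT.cond (PT.neq l (PT.nmul (PT.const 10) (PT_p2 m τ)))
    (PT_encPair (PT.replicate (PT_pd' p q (PT.nadd (PT.nmul (PT.const 5)
    (PT_rtc b (PT.const 1) (PT.nmul (PT.const _) (PT.nsucc (PT_p2 (PT_npow (PT.nsucc m) a)
    (PT.nmul (PT_cls m) (PT.const a))))))) (PT.const 10))) (PT.const true))
    (PT.cons (PT.const true) (PT_encPair (PT.const _) (PT_encPair x PT.snd)))) (PT.const [])

lemma PT_md (κ : ℕ) : PT (md a b κ) := by
  have m : PT (fun z : List Bool × List Bool => κ * (z.1.length + 1)) :=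
    PT.nmul (PT.const κ) (PT.nsucc (PT.length PT.fst))
  exact PT.getD PT.snd (PT.nmul (PT.const 10) (PT_p2 m (PT_τf (a := a) (b := b) m)))
    (PT.const false)

lemma off_τ (hb : 1 ≤ b) (hab : b ≤ a) {m : ℕ} (hm : 1 ≤ m) :
    10 * p2 m (τf a b m) = Off (τf a b m) := by
  rw [p2_eq', Off]
  have := two_pow_τf hb hab hm
  omega

variable {e κ : ℕ}

/-- the query in the binary search -/
lemma mq_lt (hb : 1 ≤ b) (hab : b ≤ a) {x v : List Bool} {t j : ℕ}
    (ht : t < τf a b (κ * (x.length + 1))) (hj : j < Dg t) (hv : v.length = Off t + j) :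
    mq a b p q e κ (x, v) = cdHf a b p q t (v.drop (Off t)) := by
  have h1 : lg v.length = t := by rw [hv]; exact lg_eq hj
  unfold mq cdHf
  dsimp only
  rw [h1, show decide (t < τf a b (κ * (x.length + 1))) = true from decide_eq_true ht, cond_true]
  have h2 : p2 ((κ * (x.length + 1)) ^ b) (t * a) + 1 = 2 ^ (t * a) := by
    have h3 := (lt_τf hb hab).1 ht
    have h4 : 2 ^ (t * a) ≤ 4 ^ b * 2 ^ (t * a) := Nat.le_mul_of_pos_left _ (by positivity)
    have h5 : 1 ≤ 2 ^ (t * a) := Nat.one_le_two_pow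
    rw [p2_eq' (by omega)]
    omega
  have h3 : 10 * p2 v.length t = Off t := by
    rw [p2_eq', Off]
    unfold Off at hv
    omega
  rw [h2, h3, pcf]

/-- the last query -/
lemma mq_eq (hb : 1 ≤ b) (hab : b ≤ a) (hκ : 1 ≤ κ) {x v : List Bool}
    (hv : v.length = Off (τf a b (κ * (x.length + 1)))) :
    mq a b p q e κ (x, v) =
      cdVf a b p q (fun _ x => κ * (x.length + 1)) (e, x) v := by
  have hm : 1 ≤ κ * (x.length + 1) := Nat.mul_pos hκ (by omega)
  have h1 : ¬ lg v.length < τf a b (κ * (x.length + 1)) := by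
    intro h
    have h2 := (lg_spec v.length).2
    have h3 : Off (lg v.length + 1) ≤ Off (τf a b (κ * (x.length + 1))) := Off_mono (by omega)
    omega
  unfold mq cdVf
  dsimp only
  rw [show decide (lg v.length < τf a b (κ * (x.length + 1))) = false from decide_eq_false h1,
    cond_false, off_τ hb hab hm, show decide (v.length = Off (τf a b (κ * (x.length + 1)))) = true
      from decide_eq_true hv, cond_true]
  have h2 : p2 ((κ * (x.length + 1) + 1) ^ a) (cls (κ * (x.length + 1)) * a) + 1 =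
      2 ^ (cls (κ * (x.length + 1)) * a) := by
    have h3 := (cls_bounds (κ * (x.length + 1))).1
    have h4 : 2 ^ (cls (κ * (x.length + 1)) * a) ≤ (κ * (x.length + 1) + 1) ^ a := by
      rw [pow_mul]
      exact Nat.pow_le_pow_left h3 a
    have h5 : 1 ≤ 2 ^ (cls (κ * (x.length + 1)) * a) := Nat.one_le_two_pow
    rw [p2_eq' (by omega)]
    omega
  rw [h2, pcf]

lemma mq_gt (hb : 1 ≤ b) (hab : b ≤ a) (hκ : 1 ≤ κ) {x v : List Bool}
    (hv : Off (τf a b (κ * (x.length + 1))) < v.length) : mq a b p q e κ (x, v) = [] := by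
  have hm : 1 ≤ κ * (x.length + 1) := Nat.mul_pos hκ (by omega)
  have h1 : ¬ lg v.length < τf a b (κ * (x.length + 1)) := by
    intro h
    have h2 := (lg_spec v.length).2
    have h3 : Off (lg v.length + 1) ≤ Off (τf a b (κ * (x.length + 1))) := Off_mono (by omega)
    omega
  unfold mq
  dsimp only
  rw [show decide (lg v.length < τf a b (κ * (x.length + 1))) = false from decide_eq_false h1,
    cond_false, off_τ hb hab hm, show decide (v.length = Off (τf a b (κ * (x.length + 1)))) = false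
      from decide_eq_false (by omega), cond_false]

/-- the next content of the memory: the list of the answers, until the last query is answered -/
def mu (a b κ : ℕ) (z : ((List Bool × List Bool) × List Bool) × List Bool) : List Bool :=
  bif decide (z.1.2.length ≤ 10 * p2 (κ * (z.1.1.1.length + 1))
    (τf a b (κ * (z.1.1.1.length + 1)))) then z.1.2 ++ z.2 else z.1.2

lemma PT_mu (κ : ℕ) : PT (mu a b κ) := by
  have m : PT (fun z : ((List Bool × List Bool) × List Bool) × List Bool =>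
      κ * (z.1.1.1.length + 1)) :=
    PT.nmul (PT.const κ) (PT.nsucc (PT.length PT.fst.p1.p1))
  exact PT.cond (PT.nle (PT.length PT.fst.p2) (PT.nmul (PT.const 10)
    (PT_p2 m (PT_τf (a := a) (b := b) m)))) (PT.append PT.fst.p2 PT.snd) PT.fst.p2

/-- the query of the machine with advice -/
def ma (a b p q e κ : ℕ) (z : List Bool × List Bool) : List Bool :=
  encPair (List.replicate (pd p q (5 * rtc b 1 (4 ^ b *
    (p2 ((κ * (z.1.length + 1) + 1) ^ a) (cls (κ * (z.1.length + 1)) * a) + 1)) + 10)) true,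
    true :: encPair (List.replicate e true, encPair (z.1, z.2)))

lemma PT_ma (e κ : ℕ) : PT (ma a b p q e κ) := by
  have x : PT (fun z : List Bool × List Bool => z.1) := PT.fst
  have m : PT (fun z : List Bool × List Bool => κ * (z.1.length + 1)) :=
    PT.nmul (PT.const κ) (PT.nsucc (PT.length x))
  exact PT_encPair (PT.replicate (PT_pd' p q (PT.nadd (PT.nmul (PT.const 5)
    (PT_rtc b (PT.const 1) (PT.nmul (PT.const _) (PT.nsucc (PT_p2 (PT_npow (PT.nsucc m) a)
    (PT.nmul (PT_cls m) (PT.const a))))))) (PT.const 10))) (PT.const true))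
    (PT.cons (PT.const true) (PT_encPair (PT.const _) (PT_encPair x PT.snd)))

lemma ma_eq {x v : List Bool} :
    ma a b p q e κ (x, v) = cdVf a b p q (fun _ x => κ * (x.length + 1)) (e, x) v := by
  unfold ma cdVf
  dsimp only
  have h2 : p2 ((κ * (x.length + 1) + 1) ^ a) (cls (κ * (x.length + 1)) * a) + 1 =
      2 ^ (cls (κ * (x.length + 1)) * a) := by
    have h3 := (cls_bounds (κ * (x.length + 1))).1
    have h4 : 2 ^ (cls (κ * (x.length + 1)) * a) ≤ (κ * (x.length + 1) + 1) ^ a := by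
      rw [pow_mul]
      exact Nat.pow_le_pow_left h3 a
    have h5 : 1 ≤ 2 ^ (cls (κ * (x.length + 1)) * a) := Nat.one_le_two_pow
    rw [p2_eq' (by omega)]
    omega
  rw [h2, pcf]

/-! ### lengths -/

lemma two_pow_τf_le (hb : 1 ≤ b) (hab : b ≤ a) {m t : ℕ} (ht : t ≤ τf a b m) {X : ℝ}
    (hX : X = m + 1) : (2 : ℝ) ^ t ≤ 2 * X ^ ((b : ℝ) / a) := by
  have hX1 : (1 : ℝ) ≤ X := by
    rw [hX]
    have : (0 : ℝ) ≤ m := Nat.cast_nonneg m
    linarith
  have hX2 : (1 : ℝ) ≤ X ^ ((b : ℝ) / a) := Real.one_le_rpow hX1 (by positivity)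
  rcases Nat.eq_zero_or_pos t with h | h
  · rw [h, pow_zero]
    linarith
  · have hm : 1 ≤ m := by
      have h1 := (τf_iff hb hab (t - 1) m).1 (by omega)
      omega
    have h1 := two_pow_τf_pow hb hab hm
    have h2 : ((2 : ℝ) ^ t) ^ a ≤ 2 ^ a * X ^ b := by
      have h3 : (2 ^ t) ^ a ≤ 2 ^ a * m ^ b :=
        (Nat.pow_le_pow_left (Nat.pow_le_pow_right (by norm_num) ht) a).trans h1
      have h4 : ((2 : ℝ) ^ t) ^ a ≤ 2 ^ a * (m : ℝ) ^ b := by exact_mod_cast h3
      refine h4.trans (mul_le_mul_of_nonneg_left ?_ (by positivity))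
      exact pow_le_pow_left₀ (Nat.cast_nonneg m) (by rw [hX]; linarith) b
    exact root_le (by omega) (by norm_num) (by linarith) h2

lemma off_le (hb : 1 ≤ b) (hab : b ≤ a) {m : ℕ} {X : ℝ} (hX : X = m + 1) :
    ((Off (τf a b m) : ℕ) : ℝ) ≤ 20 * X ^ ((b : ℝ) / a) := by
  have h8 := two_pow_τf_le hb hab (le_refl (τf a b m)) hX
  have h9 : Off (τf a b m) ≤ 10 * 2 ^ τf a b m := by
    unfold Off
    omega
  have h10 : ((Off (τf a b m) : ℕ) : ℝ) ≤ 10 * 2 ^ τf a b m := by exact_mod_cast h9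
  linarith

lemma length_cdHf (hb : 1 ≤ b) (hab : b ≤ a) (hp : 1 ≤ p)
    (h4 : (b : ℝ) / a ≤ (q : ℝ) / p) {t m : ℕ} (ht : t < τf a b m) {u : List Bool}
    (hu : u.length < Dg t) {X : ℝ} (hX : X = m + 1) :
    ((cdHf a b p q t u).length : ℝ) ≤
      (2 * ((10 : ℝ) ^ ((q : ℝ) / p) + 1) + 31) * X ^ ((q : ℝ) / p) := by
  have hX1 : (1 : ℝ) ≤ X := by
    rw [hX]
    have : (0 : ℝ) ≤ m := Nat.cast_nonneg m
    linarith
  have hqp0 : (0 : ℝ) ≤ (q : ℝ) / p := by positivity
  have hX2 : (1 : ℝ) ≤ X ^ ((q : ℝ) / p) := Real.one_le_rpow hX1 hqp0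
  have h1 := (τf_iff hb hab t m).1 ht
  have h2 := two_pow_τf_le hb hab ht.le hX
  have h3 : X ^ ((b : ℝ) / a) ≤ X ^ ((q : ℝ) / p) := Real.rpow_le_rpow_of_exponent_le hX1 h4
  have h5 : (pd p q (5 * pcf a b t + 10) : ℝ) ≤
      ((10 : ℝ) ^ ((q : ℝ) / p) + 1) * X ^ ((q : ℝ) / p) := by
    refine pd_le hp (by norm_num) hX1 ?_
    have h6 : ((pcf a b t : ℕ) : ℝ) ≤ m := by exact_mod_cast h1.le
    push_cast
    rw [hX]
    linarith
  have h6 : (t : ℝ) ≤ 2 ^ t := by exact_mod_cast (Nat.lt_two_pow_self (n := t)).le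
  have h7 : (u.length : ℝ) ≤ 10 * 2 ^ t := by
    unfold Dg at hu
    exact_mod_cast hu.le
  unfold cdHf
  simp only [length_encPair, List.length_replicate, List.length_cons]
  push_cast
  linarith

lemma length_cdVf (hb : 1 ≤ b) (hab : b ≤ a) (hp : 1 ≤ p) {s : ℝ} (hs : 1 ≤ s)
    (h2 : ((a : ℝ) * q) / (b * p) ≤ s) (hκ : 1 ≤ κ) {x v : List Bool} {m : ℕ}
    (hm : m = κ * (x.length + 1)) (hv : v.length = Off (τf a b m)) {X : ℝ} (hX : X = m + 1) :
    ((cdVf a b p q (fun _ x => κ * (x.length + 1)) (e, x) v).length : ℝ) ≤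
      (2 * ((30 : ℝ) ^ ((q : ℝ) / p) + 1) + 21 + 2 * e) * X ^ s := by
  have hm1 : x.length + 1 ≤ m := by rw [hm]; exact Nat.le_mul_of_pos_left _ hκ
  have hX1 : (1 : ℝ) ≤ X := by
    rw [hX]
    have : (0 : ℝ) ≤ m := Nat.cast_nonneg m
    linarith
  have hXs : X ≤ X ^ s := by
    have h := Real.rpow_le_rpow_of_exponent_le hX1 hs
    rwa [Real.rpow_one] at h
  have hab0 : (0 : ℝ) ≤ (a : ℝ) / b := by positivity
  have hP : ((pcf a b (cls m) : ℕ) : ℝ) ≤ 4 * X ^ ((a : ℝ) / b) := by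
    apply root_le hb (by norm_num) (by linarith)
    have h3 : pcf a b (cls m) ^ b ≤ 4 ^ b * (m + 1) ^ a := by
      refine (pcf_pow_le hb _).trans (Nat.mul_le_mul_left _ ?_)
      rw [pow_mul]
      exact Nat.pow_le_pow_left (cls_bounds m).1 a
    rw [hX]
    exact_mod_cast h3
  have hY1 : (1 : ℝ) ≤ X ^ ((a : ℝ) / b) := Real.one_le_rpow hX1 hab0
  have h5 : (pd p q (5 * pcf a b (cls m) + 10) : ℝ) ≤
      ((30 : ℝ) ^ ((q : ℝ) / p) + 1) * (X ^ ((a : ℝ) / b)) ^ ((q : ℝ) / p) := by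
    refine pd_le hp (by norm_num) hY1 ?_
    push_cast
    linarith
  have h6 : (X ^ ((a : ℝ) / b)) ^ ((q : ℝ) / p) ≤ X ^ s := by
    rw [← Real.rpow_mul (by linarith)]
    apply Real.rpow_le_rpow_of_exponent_le hX1
    rwa [div_mul_div_comm]
  have h56 := h5.trans (mul_le_mul_of_nonneg_left h6 (by positivity))
  have h7 : ((v.length : ℕ) : ℝ) ≤ 10 * m := by
    have h3 := two_pow_τf hb hab (m := m) (by omega)
    have h8 : v.length ≤ 10 * m := by
      rw [hv]
      unfold Off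
      omega
    exact_mod_cast h8
  have h8 : (x.length : ℝ) ≤ m := by exact_mod_cast (by omega : x.length ≤ m)
  have h9 : (m : ℝ) ≤ X := by rw [hX]; linarith
  unfold cdVf
  simp only [length_encPair, List.length_replicate, List.length_cons]
  rw [← hm]
  push_cast
  have he0 : (0 : ℝ) ≤ e := Nat.cast_nonneg e
  have h10 := mul_nonneg he0 (sub_nonneg.2 (hX1.trans hXs))
  linarith

end

/-! ### the memory -/

section

variable {B : Set (List Bool)} {a b k : ℕ}

lemma mem_join_true {A B : Set (List Bool)} {z : List Bool} : true :: z ∈ join A B ↔ z ∈ B := by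
  constructor
  · rintro (⟨u, h, _⟩ | ⟨u, h, h'⟩)
    · exact absurd h (by simp)
    · rw [List.cons.injEq] at h
      rw [h.2]
      exact h'
  · exact fun h => Or.inr ⟨z, rfl, h⟩

open Classical in
lemma memory_eq (hb : 1 ≤ b) (hab : b ≤ a) (hk : 1 ≤ k) (O : Set (List Bool))
    (Q : List Bool × List Bool → List Bool) (x : List Bool) (i : ℕ) :
    memory (join O B) (fun z => true :: Q (z.1.1.1, z.1.2)) (mu a b k) (x, []) 1 i =
      answers B Q x (min i (Off (τf a b (k * (x.length + 1))) + 1)) := by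
  induction i with
  | zero => rfl
  | succ i ih =>
    rw [memory, ih]
    unfold mu
    dsimp only
    rw [answers_length, off_τ hb hab (Nat.mul_pos hk (by omega))]
    rcases Nat.lt_or_ge (Off (τf a b (k * (x.length + 1)))) i with h | h
    · rw [min_eq_right (by omega), min_eq_right (by omega),
        show decide (Off (τf a b (k * (x.length + 1))) + 1 ≤ Off (τf a b (k * (x.length + 1)))) =
          false from decide_eq_false (by omega), cond_false]
    · rw [min_eq_left (by omega), min_eq_left (by omega),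
        show decide (i ≤ Off (τf a b (k * (x.length + 1)))) = true from decide_eq_true h,
        cond_true, answers]
      simp only [mem_join_true]
      rfl

end

/-! ### the upper bounds -/

/-- **Many short queries.** -/
theorem upper_long {a b p q : ℕ} (hb : 1 ≤ b) (hab : b ≤ a) (hq : 1 ≤ q) (hp : 1 ≤ p)
    {s t w : ℝ} (hs1 : 1 ≤ s) (h1 : (p : ℝ) / q ≤ t) (h2 : ((a : ℝ) * q) / (b * p) ≤ s)
    (h3 : (b : ℝ) / a + (q : ℝ) / p ≤ s) (h4 : (b : ℝ) / a ≤ (q : ℝ) / p) (h5 : (b : ℝ) / a ≤ w)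
    (lam : List Bool → Pol) (hlam : ∀ w, lam (false :: w) = MvPolynomial.X w)
    (hdeg : ∀ w, (lam w).totalDegree ≤ w.length) :
    ∃ A₀ : Set (List Bool), ∀ L, InNE (Phi lam A₀) L → ∀ α, InQ (Phi lam A₀) s t w α 1 L := by
  classical
  obtain ⟨g, hg⟩ := exists_surjective_nat Mach
  obtain ⟨Y, κ, f, hκ1, hlv, hτ, hcl, hcdH, hcdV, hacc⟩ := exists_sys hb hab hq hp lam hdeg g
  obtain ⟨A, H, on, hH, hon, hcodeH, hcodeV⟩ := exists_limit Y
  refine ⟨A, fun L hL α => ?_⟩
  obtain ⟨μ, hμ⟩ := exists_machN hL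
  obtain ⟨e, rfl⟩ := hg μ
  obtain ⟨k, hk⟩ : ∃ k, k = κ e := ⟨_, rfl⟩
  have hk1 : 1 ≤ k := by rw [hk]; exact hκ1 e
  have ha : 1 ≤ a := hb.trans hab
  have hm1 : ∀ n, 1 ≤ k * (n + 1) := fun n => Nat.mul_pos hk1 (by omega)
  have hba0 : (0 : ℝ) ≤ (b : ℝ) / a := by positivity
  -- the answers
  obtain ⟨B, hB⟩ : ∃ B, B = Certified (rR p q (Phi lam A)) := ⟨_, rfl⟩
  have hBm : ∀ z, z ∈ B ↔ ∃ b, b.length = clf p q z ∧ encPair (z, b) ∈ A := by
    intro z
    rw [hB]
    exact exists_congr fun y => and_congr_right fun _ => mem_Phi_false hlam A _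
  have hans : ∀ x : List Bool, ∀ i ≤ Off (τf a b (k * (x.length + 1))),
      answers B (mq a b p q e k) x i = (hs Dg H (τf a b (k * (x.length + 1)))).take i := by
    intro x i
    induction i with
    | zero => intro _; rfl
    | succ i ih =>
      intro hi
      obtain ⟨h1, h2⟩ := lg_spec i
      obtain ⟨t, ht⟩ : ∃ t, t = lg i := ⟨_, rfl⟩
      obtain ⟨j, hj⟩ := Nat.exists_eq_add_of_le h1
      rw [← ht] at hj h2
      have hjD : j < Dg t := by
        rw [Off_succ] at h2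
        omega
      have htτ : t < τf a b (k * (x.length + 1)) := by
        by_contra h
        have := Off_mono (not_lt.1 h)
        omega
      have h3 := ih (by omega)
      rw [answers, h3, hj, hs_take H htτ hjD.le, Nat.add_assoc, hs_take H htτ hjD, sb,
        List.append_assoc]
      congr 3
      rw [mq_lt hb hab htτ hjD (by rw [List.length_append, length_hs_Dg, length_sb]),
        List.drop_append_of_le_length (by rw [length_hs_Dg]),
        List.drop_of_length_le (by rw [length_hs_Dg]), List.nil_append, Bool.eq_iff_iff,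
        decide_eq_true_iff, decide_eq_true_iff, hBm]
      have h4 := hcodeH t (sb (Dg t) (H t) j) (by rw [length_sb]; exact hjD)
      rw [hcdH, hcl] at h4
      exact h4
  have hfull : ∀ x : List Bool,
      answers B (mq a b p q e k) x (Off (τf a b (k * (x.length + 1)))) =
        hs Dg H (τf a b (k * (x.length + 1))) := by
    intro x
    rw [hans x _ le_rfl, List.take_of_length_le (by rw [length_hs_Dg])]
  -- the number of the queries
  obtain ⟨N, hN⟩ : ∃ N : Polynomial ℕ, ∀ n, N.eval n = 10 * k * (n + 1) + 1 :=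
    ⟨Polynomial.C (10 * k) * (Polynomial.X + 1) + 1, fun n => by simp⟩
  have hoffN : ∀ n, Off (τf a b (k * (n + 1))) + 1 ≤ N.eval n := by
    intro n
    have h6 := two_pow_τf hb hab (hm1 n)
    rw [hN, Nat.mul_assoc]
    unfold Off
    omega
  have hmem : ∀ (x : List Bool) (i : ℕ),
      memory (join (Phi lam A) B) (fun z => true :: mq a b p q e k (z.1.1.1, z.1.2)) (mu a b k)
        (x, []) 1 i =
        answers B (mq a b p q e k) x (min i (Off (τf a b (k * (x.length + 1))) + 1)) :=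
    fun x i => memory_eq hb hab hk1 _ _ x i
  -- the constant
  obtain ⟨K, hK⟩ : ∃ K : ℝ, K = 20 * (2 * ((10 : ℝ) ^ ((q : ℝ) / p) + 1) + 31) +
    (2 * ((30 : ℝ) ^ ((q : ℝ) / p) + 1) + 21 + 2 * e) := ⟨_, rfl⟩
  have hk0 : (0 : ℝ) ≤ k := Nat.cast_nonneg k
  have he0 : (0 : ℝ) ≤ e := Nat.cast_nonneg e
  have hK0 : (0 : ℝ) ≤ K := by
    rw [hK]
    positivity
  obtain ⟨C, hC⟩ := exists_nat_ge (K * (2 * ((k : ℝ) + 1)) ^ s + 21 * (2 * ((k : ℝ) + 1)) ^ w + 1)
  have hks : (0 : ℝ) ≤ (2 * ((k : ℝ) + 1)) ^ s := by positivity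
  have hkw : (0 : ℝ) ≤ (2 * ((k : ℝ) + 1)) ^ w := by positivity
  have hKs : 0 ≤ K * (2 * ((k : ℝ) + 1)) ^ s := mul_nonneg hK0 hks
  refine ⟨rR p q (Phi lam A), fun z => true :: mq a b p q e k (z.1.1.1, z.1.2), mu a b k,
    fun z => md a b k (z.1.1, z.2), fun _ => [], N, C, polyTime_rR p q _, ?_, ?_, ?_, ?_, ?_,
    fun x => ⟨?_, ?_, ?_⟩⟩
  · have h6 : PT (fun w : List Bool => unpair (unpair w).1) := PT_unpair.comp PT_unpair.p1
    refine PT.toTM2 (F := fun w => true :: mq a b p q e k ((unpair (unpair (unpair w).1).1).1,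
      (unpair (unpair w).1).2)) (PT.cons (PT.const true) ((PT_mq e k).comp
        (PT.pair (PT_unpair.comp h6.p1).p1 h6.p2))) ?_
    intro z
    simp only [unpair_enc]
  · have h6 : PT (fun w : List Bool => unpair (unpair w).1) := PT_unpair.comp PT_unpair.p1
    refine PT.toTM2 (F := fun w => mu a b k ((unpair (unpair (unpair w).1).1,
      (unpair (unpair w).1).2), (unpair w).2)) ((PT_mu k).comp (PT.pair (PT.pair
        (PT_unpair.comp h6.p1) h6.p2) PT_unpair.p2)) ?_
    intro z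
    simp only [unpair_enc]
  · refine PT.decider (F := fun w => md a b k ((unpair (unpair w).1).1, (unpair w).2))
      ((PT_md k).comp (PT.pair (PT_unpair.comp PT_unpair.p1).p1 PT_unpair.p2)) ?_
    intro z
    simp only [unpair_enc]
  · rintro Q y ⟨h6, -⟩
    dsimp only at h6
    have h7 := clf_le hq hp Q h1
    have h8 : (0 : ℝ) ≤ (Q.length : ℝ) ^ t := Real.rpow_nonneg (Nat.cast_nonneg _) _
    rw [h6]
    nlinarith
  · intro n
    have h6 : (0 : ℝ) ≤ (n : ℝ) ^ α := Real.rpow_nonneg (Nat.cast_nonneg _) _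
    simp only [List.length_nil, Nat.cast_zero]
    positivity
  · -- the decision
    rw [← hB, Polynomial.eval_one, hmem, min_eq_right (hoffN _)]
    unfold md
    dsimp only
    rw [off_τ hb hab (hm1 _), answers_getD B _ _ (Nat.lt_succ_self _), hfull x,
      mq_eq hb hab hk1 (by rw [length_hs_Dg]), decide_eq_true_eq, hBm, hμ x]
    have h1 := hcodeV (f (e, x))
    rw [hlv, hτ, hcdV, hcl] at h1
    have h2 := (hon (f (e, x))).symm.trans (hacc A (e, x))
    change _ ↔ _ at h2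
    rw [← h1] at h2
    rw [hk]
    exact h2.symm
  · -- the memory
    intro i _
    rw [← hB, Polynomial.eval_one, hmem, answers_length]
    obtain ⟨X, hX⟩ : ∃ X : ℝ, X = ((k * (x.length + 1) : ℕ) : ℝ) + 1 := ⟨_, rfl⟩
    have hX1 : (1 : ℝ) ≤ X := by
      rw [hX]
      have : (0 : ℝ) ≤ ((k * (x.length + 1) : ℕ) : ℝ) := Nat.cast_nonneg _
      linarith
    have h6 := off_le hb hab hX
    have h7 : X ^ ((b : ℝ) / a) ≤ X ^ w := Real.rpow_le_rpow_of_exponent_le hX1 h5
    have h8 := level_pow_le hX (hba0.trans h5)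
    have h9 : (1 : ℝ) ≤ X ^ w := Real.one_le_rpow hX1 (hba0.trans h5)
    have h10 : ((min i (Off (τf a b (k * (x.length + 1))) + 1) : ℕ) : ℝ) ≤
        ((Off (τf a b (k * (x.length + 1))) : ℕ) : ℝ) + 1 := by
      exact_mod_cast min_le_right _ _
    have h11 : (0 : ℝ) ≤ (x.length : ℝ) ^ w := Real.rpow_nonneg (Nat.cast_nonneg _) _
    calc ((min i (Off (τf a b (k * (x.length + 1))) + 1) : ℕ) : ℝ) ≤ 21 * X ^ w := by linarith
      _ ≤ 21 * ((2 * ((k : ℝ) + 1)) ^ w * ((x.length : ℝ) ^ w + 1)) :=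
          mul_le_mul_of_nonneg_left h8 (by norm_num)
      _ = (21 * (2 * ((k : ℝ) + 1)) ^ w) * ((x.length : ℝ) ^ w + 1) := by ring
      _ ≤ C * ((x.length : ℝ) ^ w + 1) := mul_le_mul_of_nonneg_right (by linarith) (by linarith)
      _ = C * (x.length : ℝ) ^ w + C := by ring
  · -- the total length
    rw [← hB]
    obtain ⟨m, hm⟩ : ∃ m, m = k * (x.length + 1) := ⟨_, rfl⟩
    obtain ⟨X, hX⟩ : ∃ X : ℝ, X = m + 1 := ⟨_, rfl⟩
    have hX1 : (1 : ℝ) ≤ X := by
      rw [hX]
      have : (0 : ℝ) ≤ m := Nat.cast_nonneg m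
      linarith
    obtain ⟨r, hr⟩ : ∃ r : ℕ → ℕ, r = fun i => roundCharge (join (Phi lam A) B)
      (fun z => true :: mq a b p q e k (z.1.1.1, z.1.2)) (mu a b k) (x, []) 1 i := ⟨_, rfl⟩
    have hr1 : ∀ i, r i = (mq a b p q e k (x, answers B (mq a b p q e k) x
        (min i (Off (τf a b m) + 1)))).length := by
      intro i
      rw [hr]
      unfold roundCharge
      simp only [Finset.range_one, Finset.sup_singleton]
      rw [hmem, hm]
      rfl
    have hvl : ∀ i, (answers B (mq a b p q e k) x i).length = i := fun i => answers_length _ _ _ _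
    have hr2 : ∀ i, Off (τf a b m) < i → r i = 0 := by
      intro i hi
      rw [hr1, min_eq_right (by omega), mq_gt hb hab hk1 (by rw [hvl, ← hm]; omega)]
      rfl
    have hr3 : ∑ i ∈ Finset.range (N.eval x.length), roundCharge (join (Phi lam A) B)
        (fun z => true :: mq a b p q e k (z.1.1.1, z.1.2)) (mu a b k) (x, [])
        ((1 : Polynomial ℕ).eval x.length) i = ∑ i ∈ Finset.range (Off (τf a b m) + 1), r i := by
      rw [Polynomial.eval_one, hr]
      refine (Finset.sum_subset (Finset.range_subset_range.2 (by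
        rw [hm]
        exact hoffN x.length)) ?_).symm
      intro i _ hi
      rw [Finset.mem_range, not_lt] at hi
      have h6 := hr2 i hi
      rw [hr] at h6
      exact h6
    have h6 : ((∑ i ∈ Finset.range (Off (τf a b m) + 1), r i : ℕ) : ℝ) ≤
        Off (τf a b m) * ((2 * ((10 : ℝ) ^ ((q : ℝ) / p) + 1) + 31) * X ^ ((q : ℝ) / p)) +
          (2 * ((30 : ℝ) ^ ((q : ℝ) / p) + 1) + 21 + 2 * e) * X ^ s := by
      rw [Nat.cast_sum]
      refine sum_profile (fun i => ((r i : ℕ) : ℝ)) ?_ ?_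
      · intro i hi
        obtain ⟨h7, h8⟩ := lg_spec i
        obtain ⟨j, hj⟩ := Nat.exists_eq_add_of_le h7
        have hjD : j < Dg (lg i) := by
          rw [Off_succ] at h8
          omega
        have htτ : lg i < τf a b m := by
          by_contra h'
          have := Off_mono (not_lt.1 h')
          omega
        rw [hr1, min_eq_left (by omega),
          mq_lt hb hab (by rw [← hm]; exact htτ) hjD (by rw [hvl]; exact hj)]
        exact length_cdHf hb hab hp h4 htτ (by rw [List.length_drop, hvl]; omega) hX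
      · rw [hr1, min_eq_left (by omega), mq_eq hb hab hk1 (by rw [hvl, hm])]
        exact length_cdVf hb hab hp hs1 h2 hk1 hm (by rw [hvl]) hX
    have h7 := off_le hb hab hX
    have h8 : X ^ ((b : ℝ) / a) * X ^ ((q : ℝ) / p) ≤ X ^ s := by
      rw [← Real.rpow_add (by linarith)]
      exact Real.rpow_le_rpow_of_exponent_le hX1 h3
    have h10 : ((Off (τf a b m) : ℕ) : ℝ) *
        ((2 * ((10 : ℝ) ^ ((q : ℝ) / p) + 1) + 31) * X ^ ((q : ℝ) / p)) ≤
          20 * (2 * ((10 : ℝ) ^ ((q : ℝ) / p) + 1) + 31) * X ^ s := by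
      calc ((Off (τf a b m) : ℕ) : ℝ) *
            ((2 * ((10 : ℝ) ^ ((q : ℝ) / p) + 1) + 31) * X ^ ((q : ℝ) / p)) ≤
            (20 * X ^ ((b : ℝ) / a)) *
              ((2 * ((10 : ℝ) ^ ((q : ℝ) / p) + 1) + 31) * X ^ ((q : ℝ) / p)) :=
            mul_le_mul_of_nonneg_right h7 (by positivity)
        _ = 20 * (2 * ((10 : ℝ) ^ ((q : ℝ) / p) + 1) + 31) *
              (X ^ ((b : ℝ) / a) * X ^ ((q : ℝ) / p)) := by ring
        _ ≤ _ := mul_le_mul_of_nonneg_left h8 (by positivity)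
    have h11 : X ^ s ≤ (2 * ((k : ℝ) + 1)) ^ s * ((x.length : ℝ) ^ s + 1) :=
      level_pow_le (by rw [hX, hm]) (by linarith)
    have h12 : (0 : ℝ) ≤ (x.length : ℝ) ^ s := Real.rpow_nonneg (Nat.cast_nonneg _) _
    rw [hr3]
    calc ((∑ i ∈ Finset.range (Off (τf a b m) + 1), r i : ℕ) : ℝ) ≤ K * X ^ s := by
          rw [hK]
          linarith
      _ ≤ K * ((2 * ((k : ℝ) + 1)) ^ s * ((x.length : ℝ) ^ s + 1)) :=
          mul_le_mul_of_nonneg_left h11 hK0
      _ = (K * (2 * ((k : ℝ) + 1)) ^ s) * ((x.length : ℝ) ^ s + 1) := by ring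
      _ ≤ C * ((x.length : ℝ) ^ s + 1) := mul_le_mul_of_nonneg_right (by linarith) (by linarith)
      _ = C * (x.length : ℝ) ^ s + C := by ring

/-- **One query with advice.** -/
theorem upper_adv {a b p q : ℕ} (hb : 1 ≤ b) (hab : b ≤ a) (hq : 1 ≤ q) (hp : 1 ≤ p)
    {s t α : ℝ} (hs1 : 1 ≤ s) (h1 : (p : ℝ) / q ≤ t) (h2 : ((a : ℝ) * q) / (b * p) ≤ s)
    (h5 : (b : ℝ) / a ≤ α)
    (lam : List Bool → Pol) (hlam : ∀ w, lam (false :: w) = MvPolynomial.X w)
    (hdeg : ∀ w, (lam w).totalDegree ≤ w.length) :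
    ∃ A₀ : Set (List Bool), ∀ L, InNE (Phi lam A₀) L → ∀ w, InQ (Phi lam A₀) s t w α 1 L := by
  classical
  obtain ⟨g, hg⟩ := exists_surjective_nat Mach
  obtain ⟨Y, κ, f, hκ1, hlv, hτ, hcl, hcdH, hcdV, hacc⟩ := exists_sys hb hab hq hp lam hdeg g
  obtain ⟨A, H, on, hH, hon, hcodeH, hcodeV⟩ := exists_limit Y
  refine ⟨A, fun L hL w => ?_⟩
  obtain ⟨μ, hμ⟩ := exists_machN hL
  obtain ⟨e, rfl⟩ := hg μ
  obtain ⟨k, hk⟩ : ∃ k, k = κ e := ⟨_, rfl⟩
  have hk1 : 1 ≤ k := by rw [hk]; exact hκ1 e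
  have ha : 1 ≤ a := hb.trans hab
  have hm1 : ∀ n, 1 ≤ k * (n + 1) := fun n => Nat.mul_pos hk1 (by omega)
  have hba0 : (0 : ℝ) ≤ (b : ℝ) / a := by positivity
  obtain ⟨B, hB⟩ : ∃ B, B = Certified (rR p q (Phi lam A)) := ⟨_, rfl⟩
  have hBm : ∀ z, z ∈ B ↔ ∃ b, b.length = clf p q z ∧ encPair (z, b) ∈ A := by
    intro z
    rw [hB]
    exact exists_congr fun y => and_congr_right fun _ => mem_Phi_false hlam A _
  -- the constant
  obtain ⟨K, hK⟩ : ∃ K : ℝ, K = 2 * ((30 : ℝ) ^ ((q : ℝ) / p) + 1) + 21 + 2 * e := ⟨_, rfl⟩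
  have hk0 : (0 : ℝ) ≤ k := Nat.cast_nonneg k
  have he0 : (0 : ℝ) ≤ e := Nat.cast_nonneg e
  have hK0 : (0 : ℝ) ≤ K := by
    rw [hK]
    positivity
  obtain ⟨C, hC⟩ := exists_nat_ge (K * (2 * ((k : ℝ) + 1)) ^ s + 20 * (2 * ((k : ℝ) + 1)) ^ α + 1)
  have hks : (0 : ℝ) ≤ (2 * ((k : ℝ) + 1)) ^ s := by positivity
  have hkα : (0 : ℝ) ≤ (2 * ((k : ℝ) + 1)) ^ α := by positivity
  have hKs : 0 ≤ K * (2 * ((k : ℝ) + 1)) ^ s := mul_nonneg hK0 hks
  refine ⟨rR p q (Phi lam A), fun z => true :: ma a b p q e k z.1.1, fun z => z.2,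
    fun z => z.2.headD false, fun n => hs Dg H (τf a b (k * (n + 1))), 1, C,
    polyTime_rR p q _, ?_, ?_, ?_, ?_, ?_, fun x => ⟨?_, ?_, ?_⟩⟩
  · have h6 : PT (fun w : List Bool => unpair (unpair w).1) := PT_unpair.comp PT_unpair.p1
    refine PT.toTM2 (F := fun w => true :: ma a b p q e k (unpair (unpair (unpair w).1).1))
      (PT.cons (PT.const true) ((PT_ma e k).comp (PT_unpair.comp h6.p1))) ?_
    intro z
    simp only [unpair_enc]
  · refine PT.toTM2 (F := fun w => (unpair w).2) PT_unpair.p2 ?_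
    intro z
    simp only [unpair_enc]
  · refine PT.decider (F := fun w => (unpair w).2.headD false)
      (PT.headD PT_unpair.p2 (PT.const false)) ?_
    intro z
    simp only [unpair_enc]
  · rintro Q y ⟨h6, -⟩
    dsimp only at h6
    have h7 := clf_le hq hp Q h1
    have h8 : (0 : ℝ) ≤ (Q.length : ℝ) ^ t := Real.rpow_nonneg (Nat.cast_nonneg _) _
    rw [h6]
    nlinarith
  · intro n
    rw [length_hs_Dg]
    obtain ⟨X, hX⟩ : ∃ X : ℝ, X = ((k * (n + 1) : ℕ) : ℝ) + 1 := ⟨_, rfl⟩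
    have hX1 : (1 : ℝ) ≤ X := by
      rw [hX]
      have : (0 : ℝ) ≤ ((k * (n + 1) : ℕ) : ℝ) := Nat.cast_nonneg _
      linarith
    have h6 := off_le hb hab hX
    have h7 : X ^ ((b : ℝ) / a) ≤ X ^ α := Real.rpow_le_rpow_of_exponent_le hX1 h5
    have h8 := level_pow_le hX (hba0.trans h5)
    have h11 : (0 : ℝ) ≤ (n : ℝ) ^ α := Real.rpow_nonneg (Nat.cast_nonneg _) _
    calc ((Off (τf a b (k * (n + 1))) : ℕ) : ℝ) ≤ 20 * X ^ α := by linarith
      _ ≤ 20 * ((2 * ((k : ℝ) + 1)) ^ α * ((n : ℝ) ^ α + 1)) :=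
          mul_le_mul_of_nonneg_left h8 (by norm_num)
      _ = (20 * (2 * ((k : ℝ) + 1)) ^ α) * ((n : ℝ) ^ α + 1) := by ring
      _ ≤ C * ((n : ℝ) ^ α + 1) := mul_le_mul_of_nonneg_right (by linarith) (by linarith)
      _ = C * (n : ℝ) ^ α + C := by ring
  · -- the decision
    rw [← hB, Polynomial.eval_one]
    change x ∈ L ↔ List.headD [decide (true :: ma a b p q e k
      (x, hs Dg H (τf a b (k * (x.length + 1)))) ∈ join (Phi lam A) B)] false = true
    rw [List.headD_cons, decide_eq_true_eq, mem_join_true, ma_eq, hBm, hμ x]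
    have h1 := hcodeV (f (e, x))
    rw [hlv, hτ, hcdV, hcl] at h1
    have h2 := (hon (f (e, x))).symm.trans (hacc A (e, x))
    change _ ↔ _ at h2
    rw [← h1] at h2
    rw [hk]
    exact h2.symm
  · -- the memory
    intro i _
    rw [← hB, Polynomial.eval_one]
    have h6 : (memory (join (Phi lam A) B) (fun z => true :: ma a b p q e k z.1.1) (fun z => z.2)
        (x, hs Dg H (τf a b (k * (x.length + 1)))) 1 i).length ≤ 1 := by
      rcases i with _ | i
      · exact Nat.zero_le _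
      · rw [memory]
        simp
    have h7 : ((memory (join (Phi lam A) B) (fun z => true :: ma a b p q e k z.1.1)
        (fun z => z.2) (x, hs Dg H (τf a b (k * (x.length + 1)))) 1 i).length : ℝ) ≤ 1 := by
      exact_mod_cast h6
    have h8 : (0 : ℝ) ≤ (x.length : ℝ) ^ w := Real.rpow_nonneg (Nat.cast_nonneg _) _
    have h9 : (1 : ℝ) ≤ C := by linarith
    nlinarith
  · -- the total length
    rw [← hB, Polynomial.eval_one, Finset.sum_range_one]
    unfold roundCharge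
    simp only [Finset.range_one, Finset.sup_singleton, charge]
    rw [ma_eq]
    obtain ⟨m, hm⟩ : ∃ m, m = k * (x.length + 1) := ⟨_, rfl⟩
    obtain ⟨X, hX⟩ : ∃ X : ℝ, X = m + 1 := ⟨_, rfl⟩
    have h6 := length_cdVf (q := q) (e := e) hb hab hp hs1 h2 hk1 hm
      (v := hs Dg H (τf a b (k * (x.length + 1)))) (by rw [length_hs_Dg, hm]) hX
    have h11 : X ^ s ≤ (2 * ((k : ℝ) + 1)) ^ s * ((x.length : ℝ) ^ s + 1) :=
      level_pow_le (by rw [hX, hm]) (by linarith)
    have h12 : (0 : ℝ) ≤ (x.length : ℝ) ^ s := Real.rpow_nonneg (Nat.cast_nonneg _) _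
    rw [← hK] at h6
    refine h6.trans ?_
    calc K * X ^ s ≤ K * ((2 * ((k : ℝ) + 1)) ^ s * ((x.length : ℝ) ^ s + 1)) :=
          mul_le_mul_of_nonneg_left h11 hK0
      _ = (K * (2 * ((k : ℝ) + 1)) ^ s) * ((x.length : ℝ) ^ s + 1) := by ring
      _ ≤ C * ((x.length : ℝ) ^ s + 1) := mul_le_mul_of_nonneg_right (by linarith) (by linarith)
      _ = C * (x.length : ℝ) ^ s + C := by ring

end Pool.Agent.PFP
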