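import Pool.Agent.MP_92db0f_lc_thr.Upper

/-!
The parity of the number of accepting computations is the parity of the number of the sets of
queries with positive answers in a family that does not depend on the oracle.
-/

set_option autoImplicit false

namespace Pool.Agent.PFP

open MP_92db0f_lc_alg (answers)
open MP_92db0f_lc_thr (answers_getD)

/-- the bit strings of length `n` -/
def vecs (n : ℕ) : Finset (List Bool) := (Finset.univ : Finset (Fin n → Bool)).image List.ofFn

lemma mem_vecs {n : ℕ} {v : List Bool} : v ∈ vecs n ↔ v.length = n := by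
  unfold vecs
  rw [Finset.mem_image]
  constructor
  · rintro ⟨f, -, rfl⟩
    exact List.length_ofFn
  · intro hv
    subst hv
    exact ⟨v.get, Finset.mem_univ _, List.ofFn_get v⟩

/-- the positions of the answers `true` -/
def ones (N : ℕ) (v : List Bool) : Finset ℕ :=
  (Finset.range N).filter fun i => v.getD i false = true

lemma odd_card_Icc (P Q : Finset ℕ) : Odd (Finset.Icc P Q).card ↔ P = Q := by
  by_cases h : P ⊆ Q
  · rw [Finset.card_Icc_finset h]
    have h1 := Finset.card_le_card h
    constructor
    · intro h2
      apply Finset.eq_of_subset_of_card_le h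
      by_contra h3
      obtain ⟨k, hk⟩ : ∃ k, Q.card - P.card = k + 1 := ⟨Q.card - P.card - 1, by omega⟩
      rw [hk, pow_succ, Nat.odd_mul] at h2
      exact absurd h2.2 (by decide)
    · rintro rfl
      simp
  · rw [Finset.Icc_eq_empty h]
    simp only [Finset.card_empty, Nat.not_odd_zero, false_iff]
    rintro rfl
    exact h (Finset.Subset.refl _)

open Classical in
/-- the answers are the only string that describes them -/
lemma ones_eq_iff (O : Set (List Bool)) {α : Type} (q : α × List Bool → List Bool) (a : α) (N : ℕ)
    {v : List Bool} (hv : v.length = N) :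
    ones N v = ((Finset.range N).filter fun i => q (a, v.take i) ∈ O) ↔ v = answers O q a N := by
  constructor
  · intro h
    have h1 : ∀ i < N, v.getD i false = decide (q (a, v.take i) ∈ O) := by
      intro i hi
      have h2 : i ∈ ones N v ↔ i ∈ ((Finset.range N).filter fun i => q (a, v.take i) ∈ O) := by
        rw [h]
      unfold ones at h2
      rw [Finset.mem_filter, Finset.mem_filter, Finset.mem_range] at h2
      have h3 : v.getD i false = true ↔ q (a, v.take i) ∈ O :=
        ⟨fun h4 => (h2.1 ⟨hi, h4⟩).2, fun h4 => (h2.2 ⟨hi, h4⟩).2⟩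
      rw [Bool.eq_iff_iff, decide_eq_true_iff]
      exact h3
    have h2 : ∀ i ≤ N, v.take i = answers O q a i := by
      intro i
      induction i with
      | zero =>
        intro _
        rw [List.take_zero]
        rfl
      | succ i ih =>
        intro hi
        have h3 := ih (by omega)
        have h4 := h1 i (by omega)
        rw [answers, ← h3, ← h4, List.take_add_one, List.getD_eq_getElem?_getD]
        have h5 : i < v.length := by omega
        rw [List.getElem?_eq_getElem h5]
        rfl
    have h3 := h2 N le_rfl
    rwa [List.take_of_length_le (by omega)] at h3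
  · rintro rfl
    unfold ones
    apply Finset.filter_congr
    intro i hi
    rw [Finset.mem_range] at hi
    rw [answers_getD O q a hi, MP_92db0f_lc_thr.answers_take O q a hi.le, decide_eq_true_iff]

open Classical in
/-- the possible computations together with a set of positions that contains the positions of the
answers `true` -/
noncomputable def paths {α : Type} (d : α → List Bool → Prop) (Y : Finset α) (N : α → ℕ) :
    Finset (Σ _ : α, List Bool × Finset ℕ) :=
  (Y.sigma fun a => ((vecs (N a)).filter (d a)) ×ˢ (Finset.range (N a)).powerset).filter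
    fun t => ones (N t.1) t.2.1 ⊆ t.2.2

lemma mem_paths {α : Type} {d : α → List Bool → Prop} {Y : Finset α} {N : α → ℕ}
    {t : Σ _ : α, List Bool × Finset ℕ} : t ∈ paths d Y N ↔ t.1 ∈ Y ∧ t.2.1.length = N t.1 ∧
      d t.1 t.2.1 ∧ t.2.2 ⊆ Finset.range (N t.1) ∧ ones (N t.1) t.2.1 ⊆ t.2.2 := by
  classical
  unfold paths
  rw [Finset.mem_filter, Finset.mem_sigma, Finset.mem_product, Finset.mem_filter, mem_vecs,
    Finset.mem_powerset]
  tauto

open Classical in
/-- **The parity of the number of the accepting computations.** -/
theorem odd_paths (O : Set (List Bool)) {α : Type} (q : α × List Bool → List Bool)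
    (d : α → List Bool → Prop) (Y : Finset α) (N : α → ℕ) :
    Odd (Y.filter fun a => d a (answers O q a (N a))).card ↔
      Odd ((paths d Y N).filter fun t => ∀ i ∈ t.2.2, q (t.1, t.2.1.take i) ∈ O).card := by
  rw [← ZMod.natCast_eq_one_iff_odd, ← ZMod.natCast_eq_one_iff_odd]
  have key : (((Y.filter fun a => d a (answers O q a (N a))).card : ℕ) : ZMod 2) =
      (((paths d Y N).filter fun t => ∀ i ∈ t.2.2, q (t.1, t.2.1.take i) ∈ O).card : ℕ) := by
    unfold paths
    rw [Finset.filter_filter, Finset.card_filter, Finset.card_filter, Finset.sum_sigma]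
    push_cast
    refine Finset.sum_congr rfl fun a _ => ?_
    rw [Finset.sum_product]
    dsimp only
    have h1 : ∀ v ∈ (vecs (N a)).filter (d a), (∑ S ∈ (Finset.range (N a)).powerset,
        (if ones (N a) v ⊆ S ∧ ∀ i ∈ S, q (a, v.take i) ∈ O then (1 : ZMod 2) else 0)) =
        if v = answers O q a (N a) then 1 else 0 := by
      intro v hv
      rw [Finset.mem_filter, mem_vecs] at hv
      have h2 : (∑ S ∈ (Finset.range (N a)).powerset,
          (if ones (N a) v ⊆ S ∧ ∀ i ∈ S, q (a, v.take i) ∈ O then (1 : ZMod 2) else 0)) =
          (((Finset.Icc (ones (N a) v) ((Finset.range (N a)).filter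
            fun i => q (a, v.take i) ∈ O)).card : ℕ) : ZMod 2) := by
        rw [Finset.sum_ite, Finset.sum_const_zero, add_zero, Finset.sum_const, nsmul_eq_mul,
          mul_one]
        congr 2
        ext S
        rw [Finset.mem_filter, Finset.mem_powerset, Finset.mem_Icc]
        constructor
        · rintro ⟨h3, h4, h5⟩
          exact ⟨h4, fun i hi => Finset.mem_filter.2 ⟨h3 hi, h5 i hi⟩⟩
        · rintro ⟨h3, h4⟩
          exact ⟨fun i hi => (Finset.mem_filter.1 (h4 hi)).1, h3,
            fun i hi => (Finset.mem_filter.1 (h4 hi)).2⟩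
      rw [h2]
      by_cases h3 : v = answers O q a (N a)
      · rw [if_pos h3, ZMod.natCast_eq_one_iff_odd, odd_card_Icc]
        exact (ones_eq_iff O q a (N a) hv.1).2 h3
      · rw [if_neg h3, ZMod.natCast_eq_zero_iff_even, ← Nat.not_odd_iff_even, odd_card_Icc]
        exact fun h4 => h3 ((ones_eq_iff O q a (N a) hv.1).1 h4)
    rw [Finset.sum_congr rfl h1, Finset.sum_ite_eq']
    by_cases h2 : d a (answers O q a (N a))
    · rw [if_pos h2, if_pos (Finset.mem_filter.2 ⟨mem_vecs.2 (MP_92db0f_lc_alg.answers_length ..),
        h2⟩)]
    · rw [if_neg h2, if_neg fun h3 => h2 (Finset.mem_filter.1 h3).2]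
  rw [key]

end Pool.Agent.PFP
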