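import Pool.Agent.PFP.Defs
import Pool.Agent.PFP.Paths

/-!
A rule such that the oracles that obey it satisfy `P = ⊕P`.
-/

set_option autoImplicit false

namespace Pool.Agent.PFP

open Turing Computability Lib.helper60
open MP_92db0f_lc_alg (answers PolyTime Mach InP answers_congr answers_length)
open MP_92db0f_lc (length_encPair PT_encPair PT_peval)
open MP_92db0f_lc_mul (length_strFun)

/-! ### families from index sets -/

lemma length_filter_toList {ι : Type} (I : Finset ι) (f : ι → List (List Bool))
    (p : List (List Bool) → Prop) (r : ι → Prop) [DecidablePred p] [DecidablePred r]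
    (h : ∀ t, p (f t) ↔ r t) :
    ((I.toList.map f).filter fun M => decide (p M)).length = (I.filter r).card := by
  classical
  rw [List.filter_map, List.length_map]
  have h1 : (I.filter r).card = Multiset.card (I.val.filter r) := rfl
  rw [h1, ← Finset.coe_toList, Multiset.filter_coe, Multiset.coe_card]
  congr 2
  funext t
  exact decide_eq_decide.2 (h t)

/-! ### the computations of a machine -/

/-- the queries of the machine `μ` on the input `x` and the certificate `y` -/
def mqf (μ : Mach) (x : List Bool) (z : List Bool × List Bool) : List Bool :=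
  μ.q (encPair (x, z.1), z.2)

/-- the machine `μ` accepts the input `x` and the certificate `y` after the answers `v` -/
def mdf (μ : Mach) (x y v : List Bool) : Prop := μ.d (encPair (x, y), v) = true

open Classical in
/-- the family of the lists of queries that describes the computations of the machine `μ` on the
input `x` and the certificates in `Y` -/
noncomputable def famOf (μ : Mach) (x : List Bool) (Y : Finset (List Bool)) : List (List (List Bool)) :=
  (paths (mdf μ x) Y
    fun y => μ.2.2.1.eval (encPair (x, y)).length).toList.map
      fun t => t.2.2.toList.map fun i => mqf μ x (t.1, t.2.1.take i)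

open Classical in
/-- the parity of the number of the accepted certificates -/
lemma par_famOf (A : Set (List Bool)) (μ : Mach) (x : List Bool) (Y : Finset (List Bool)) :
    Par A (famOf μ x Y) ↔ Odd (Y.filter fun y => μ.Acc1 A x y).card := by
  have h1 := odd_paths A (mqf μ x) (mdf μ x) Y fun y => μ.2.2.1.eval (encPair (x, y)).length
  have h2 : (Y.filter fun y => μ.Acc1 A x y) = Y.filter fun y =>
      mdf μ x y (answers A (mqf μ x) y (μ.2.2.1.eval (encPair (x, y)).length)) := by
    apply Finset.filter_congr
    intro y _
    unfold Mach.Acc1 mdf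
    rw [answers_congr A μ.q (mqf μ x) (encPair (x, y)) y fun v => rfl]
  rw [h2, h1]
  have h3 : ∀ t : (Σ _ : List Bool, List Bool × Finset ℕ),
      (∀ u ∈ (t.2.2.toList.map fun i => mqf μ x (t.1, t.2.1.take i)), u ∈ A) ↔
        ∀ i ∈ t.2.2, mqf μ x (t.1, t.2.1.take i) ∈ A := by
    intro t
    simp only [List.mem_map, Finset.mem_toList, forall_exists_index, and_imp,
      forall_apply_eq_imp_iff₂]
  unfold Par famOf
  exact Iff.of_eq (congrArg Odd (@length_filter_toList _ _ _ _ _ _ _ h3))

/-- every relation decided in polynomial time is decided by a machine -/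
lemma exists_machR {O : Set (List Bool)} {R : List Bool × List Bool → Prop}
    (h : PolyTime encPair O R) : ∃ μ : Mach, ∀ x y, R (x, y) ↔ μ.Acc1 O x y := by
  obtain ⟨q, d, P, ⟨hq⟩, ⟨hd⟩, hR⟩ := h
  obtain ⟨φ, T, hs⟩ := MP_92db0f_lc.exists_table hq
  obtain ⟨φ', T', hs'⟩ := MP_92db0f_lc.exists_table hd
  refine ⟨((φ, T), (φ', T'), P, 0), fun x y => ?_⟩
  rw [hR (x, y)]
  unfold Mach.Acc1
  have h1 : ∀ v, q ((x, y), v) = Mach.q ((φ, T), (φ', T'), P, 0) (encPair (x, y), v) := by
    intro v
    exact (hs.strFun ((x, y), v)).symm
  have h2 : ∀ v, d ((x, y), v) = Mach.d ((φ, T), (φ', T'), P, 0) (encPair (x, y), v) := by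
    intro v
    have h3 := hs'.strFun ((x, y), v)
    unfold Mach.d
    dsimp only at h3 ⊢
    rw [h3]
    rfl
  rw [h2, answers_congr O q _ (x, y) (encPair (x, y)) h1]

/-- the strings of length at most `m` -/
def upTo (m : ℕ) : Finset (List Bool) := (Finset.range (m + 1)).biUnion vecs

lemma mem_upTo {m : ℕ} {y : List Bool} : y ∈ upTo m ↔ y.length ≤ m := by
  unfold upTo
  rw [Finset.mem_biUnion]
  constructor
  · rintro ⟨n, hn, hy⟩
    rw [Finset.mem_range] at hn
    rw [mem_vecs] at hy
    omega
  · intro h
    exact ⟨y.length, Finset.mem_range.2 (by omega), mem_vecs.2 rfl⟩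

/-- the total length of the queries in each list of the family -/
lemma exists_poly (μ : Mach) (P : Polynomial ℕ) : ∃ G : Polynomial ℕ, ∀ (x : List Bool),
    ∀ M ∈ famOf μ x (upTo (P.eval x.length)), (M.map List.length).sum ≤ G.eval x.length := by
  classical
  obtain ⟨Q, hQ⟩ := length_strFun μ.1.1 μ.1.2
  refine ⟨μ.2.2.1.comp (2 * Polynomial.X + 2 + P) *
    Q.comp (2 * (2 * Polynomial.X + 2 + P) + 2 + μ.2.2.1.comp (2 * Polynomial.X + 2 + P)),
    fun x M hM => ?_⟩
  unfold famOf at hM
  obtain ⟨t, ht, rfl⟩ := List.mem_map.1 hM
  rw [Finset.mem_toList, mem_paths, mem_upTo] at ht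
  obtain ⟨h1, h2, -, h3, -⟩ := ht
  have h4 : (encPair (x, t.1)).length ≤ 2 * x.length + 2 + P.eval x.length := by
    rw [length_encPair]
    omega
  have h5 : μ.2.2.1.eval (encPair (x, t.1)).length ≤
      μ.2.2.1.eval (2 * x.length + 2 + P.eval x.length) := evalMono _ h4
  have h6 : ∀ l ∈ ((t.2.2.toList.map fun i => mqf μ x (t.1, t.2.1.take i)).map List.length),
      l ≤ Q.eval (2 * (2 * x.length + 2 + P.eval x.length) + 2 +
        μ.2.2.1.eval (2 * x.length + 2 + P.eval x.length)) := by
    intro l hl
    rw [List.map_map, List.mem_map] at hl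
    obtain ⟨i, -, rfl⟩ := hl
    have h7 := hQ (encPair (encPair (x, t.1), t.2.1.take i))
    refine h7.trans (evalMono Q ?_)
    rw [length_encPair]
    have h8 : (t.2.1.take i).length ≤ t.2.1.length := by
      rw [List.length_take]
      omega
    omega
  have h7 := List.sum_le_card_nsmul _ _ h6
  refine h7.trans ?_
  rw [smul_eq_mul, List.length_map, List.length_map, Finset.length_toList]
  have h8 : t.2.2.card ≤ μ.2.2.1.eval (2 * x.length + 2 + P.eval x.length) := by
    refine (Finset.card_le_card h3).trans ?_
    rw [Finset.card_range]
    exact h5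
  refine (Nat.mul_le_mul_right _ h8).trans (le_of_eq ?_)
  simp [Polynomial.eval_mul, Polynomial.eval_comp]

/-! ### the rule -/

/-- an enumeration of the machines and polynomials -/
noncomputable def enumM : ℕ → Mach × Polynomial ℕ :=
  (exists_surjective_nat (Mach × Polynomial ℕ)).choose

lemma enumM_surj : Function.Surjective enumM :=
  (exists_surjective_nat (Mach × Polynomial ℕ)).choose_spec

open Classical in
/-- the rule for the parities of the numbers of the accepted certificates: the string `w` is read as
the code of the number of a machine, an input and a padding -/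
noncomputable def parRule (w : List Bool) : List (List (List Bool)) :=
  (famOf (enumM (unpair w).1.length).1 (unpair (unpair w).2).1
    (upTo ((enumM (unpair w).1.length).2.eval (unpair (unpair w).2).1.length))).filter
      fun M => (M.map List.length).sum ≤ w.length

lemma parRule_len (w : List Bool) : ∀ M ∈ parRule w, (M.map List.length).sum ≤ w.length := by
  intro M hM
  unfold parRule at hM
  simpa using (List.mem_filter.1 hM).2

/-- **Oracles that obey the rule satisfy `⊕P = P`.** -/
theorem inP_of_inParityP {A : Set (List Bool)} {pre : List Bool → List Bool} (hpre : PT pre)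
    (h : ∀ w, pre w ∈ A ↔ Par A (parRule w)) {L : Set (List Bool)} (hL : InParityP A L) :
    InP A L := by
  classical
  obtain ⟨P, R, hR, hL⟩ := hL
  obtain ⟨μ, hμ⟩ := exists_machR hR
  obtain ⟨e, he⟩ := enumM_surj (μ, P)
  obtain ⟨G, hG⟩ := exists_poly μ P
  have key : ∀ x : List Bool, x ∈ L ↔ pre (encPair (List.replicate e true, encPair (x,
      List.replicate (G.eval x.length) true))) ∈ A := by
    intro x
    rw [h, hL]
    have h1 : parRule (encPair (List.replicate e true, encPair (x,
        List.replicate (G.eval x.length) true))) = famOf μ x (upTo (P.eval x.length)) := by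
      unfold parRule
      rw [unpair_enc, unpair_enc, List.length_replicate, he]
      dsimp only
      rw [List.filter_eq_self]
      intro M hM
      rw [decide_eq_true_iff, length_encPair, length_encPair, List.length_replicate]
      have h2 := hG x M hM
      rw [List.length_replicate]
      omega
    rw [h1, par_famOf]
    have h2 : {y : List Bool | y.length ≤ P.eval x.length ∧ R (x, y)} =
        (((upTo (P.eval x.length)).filter fun y => μ.Acc1 A x y : Finset (List Bool)) :
          Set (List Bool)) := by
      ext y
      rw [Finset.coe_filter]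
      exact and_congr mem_upTo.symm (hμ x y)
    rw [h2, Set.ncard_coe_finset]
  have hpt : PT fun x : List Bool => pre (encPair (List.replicate e true, encPair (x,
      List.replicate (G.eval x.length) true))) :=
    hpre.comp (PT_encPair (PT.const _) (PT_encPair PT.id
      (PT.replicate (PT_peval G (PT.length PT.id)) (PT.const true))))
  refine ⟨fun z => pre (encPair (List.replicate e true, encPair (z.1,
      List.replicate (G.eval z.1.length) true))), fun z => z.2.headD false, 1, ?_, ?_, ?_⟩
  · refine PT.toTM2 (F := fun w => pre (encPair (List.replicate e true, encPair ((unpair w).1,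
      List.replicate (G.eval (unpair w).1.length) true)))) ?_ ?_
    · exact hpt.comp PT_unpair.p1
    · intro a
      simp only [unpair_enc]
  · refine PT.decider (F := fun w => (unpair w).2.headD false) ?_ ?_
    · exact PT.headD PT_unpair.p2 (PT.const false)
    · intro a
      simp only [unpair_enc]
  · intro x
    refine (key x).trans ?_
    simp [answers]

theorem exists_parityRule : ∃ Λ : List Bool → List (List (List Bool)),
    (∀ w, ∀ M ∈ Λ w, (M.map List.length).sum ≤ w.length) ∧
    ∀ A : Set (List Bool), (∀ w, true :: false :: w ∈ A ↔ Par A (Λ w)) →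
      ∀ L, InParityP A L → InP A L :=
  ⟨parRule, parRule_len, fun _ hA _ hL => inP_of_inParityP (pre := fun w => true :: false :: w)
    (PT.cons (PT.const true) (PT.cons (PT.const false) PT.id)) hA hL⟩

end Pool.Agent.PFP
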