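import Pool.Agent.PFP.CDefs
import Mathlib.FieldTheory.ChevalleyWarning

/-!
By the theorem of Chevalley and Warning, a set with more points than the sum of the degrees of
finitely many polynomials over the field with two elements has a nonempty subset that no
polynomial sees.
-/

set_option autoImplicit false

namespace Pool.Agent.PFP

open MvPolynomial

/-- substitution of polynomials of degree at most one -/
lemma totalDegree_aeval_le {σ τ : Type*} (g : σ → MvPolynomial τ (ZMod 2))
    (hg : ∀ i, (g i).totalDegree ≤ 1) (p : MvPolynomial σ (ZMod 2)) :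
    (aeval g p).totalDegree ≤ p.totalDegree := by
  rw [aeval_def, eval₂_eq]
  refine totalDegree_finsetSum_le fun d hd => ?_
  refine (totalDegree_mul _ _).trans ?_
  have h1 : (algebraMap (ZMod 2) (MvPolynomial τ (ZMod 2)) (coeff d p)).totalDegree = 0 :=
    totalDegree_C _
  rw [h1, Nat.zero_add]
  refine (totalDegree_finsetProd _ _).trans ?_
  refine le_trans (Finset.sum_le_sum fun i _ => ?_) (le_totalDegree hd)
  refine (totalDegree_pow _ _).trans ?_
  exact (Nat.mul_le_mul_left _ (hg i)).trans (le_of_eq (Nat.mul_one _))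

/-- the value of a polynomial after a substitution -/
lemma eval_aeval {σ τ : Type*} (g : σ → MvPolynomial τ (ZMod 2)) (x : τ → ZMod 2)
    (p : MvPolynomial σ (ZMod 2)) : eval x (aeval g p) = eval (fun i => eval x (g i)) p := by
  induction p using MvPolynomial.induction_on with
  | C a =>
    rw [aeval_C, eval_C]
    exact eval_C a
  | add p q hp hq => rw [map_add, map_add, map_add, hp, hq]
  | mul_X p i hp => rw [map_mul, map_mul, map_mul, hp, aeval_X, eval_X]

/-- **The block lemma.** The degrees are smaller than the number of the points: some nonempty set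
of points is invisible. -/
theorem exists_invisible (A : Set (List Bool)) (U : Finset (List Bool)) (S : Finset Pol)
    (hUA : ∀ x ∈ U, x ∉ A) (h : ∑ p ∈ S, p.totalDegree < U.card) :
    ∃ T : Finset (List Bool), T ⊆ U ∧ T.Nonempty ∧
      ∀ p ∈ S, val A p = val (A ∪ (T : Set (List Bool))) p := by
  classical
  let g : List Bool → MvPolynomial U (ZMod 2) :=
    fun u => if hu : u ∈ U then X ⟨u, hu⟩ else C (ind A u)
  have hg : ∀ i, (g i).totalDegree ≤ 1 := by
    intro i
    by_cases hi : i ∈ U
    · simp only [g, dif_pos hi]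
      exact (totalDegree_X _).le
    · simp only [g, dif_neg hi, totalDegree_C]
      exact Nat.zero_le _
  let f : Pol → MvPolynomial U (ZMod 2) := fun p => aeval g p - C (val A p)
  have hf : ∀ p, (f p).totalDegree ≤ p.totalDegree := fun p =>
    (totalDegree_sub_C_le _ _).trans (totalDegree_aeval_le g hg p)
  have hev : ∀ (x : U → ZMod 2) (p : Pol), eval x (f p) = 0 ↔
      eval (fun i => eval x (g i)) p = val A p := by
    intro x p
    change eval x (aeval g p - C (val A p)) = 0 ↔ _
    rw [map_sub, eval_C, sub_eq_zero, eval_aeval]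
  have h0 : ∀ p ∈ S, eval (0 : U → ZMod 2) (f p) = 0 := by
    intro p _
    rw [hev]
    unfold val
    congr 2
    funext u
    by_cases hu : u ∈ U
    · simp only [g, dif_pos hu, eval_X, Pi.zero_apply]
      unfold ind
      rw [if_neg (hUA u hu)]
    · simp only [g, dif_neg hu, eval_C]
  have hcw := char_dvd_card_solutions_of_sum_lt (K := ZMod 2) (σ := U) 2 (s := S) (f := f)
    (lt_of_le_of_lt (Finset.sum_le_sum fun p _ => hf p) (by rw [Fintype.card_coe]; exact h))
  have hpos : 0 < Fintype.card {x : U → ZMod 2 // ∀ p ∈ S, eval x (f p) = 0} :=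
    Fintype.card_pos_iff.2 ⟨⟨0, h0⟩⟩
  have h2 : 1 < Fintype.card {x : U → ZMod 2 // ∀ p ∈ S, eval x (f p) = 0} := by
    obtain ⟨k, hk⟩ := hcw
    omega
  obtain ⟨⟨x, hx⟩, hne⟩ := Fintype.exists_ne_of_one_lt_card h2 ⟨0, h0⟩
  have hx0 : x ≠ 0 := fun h => hne (Subtype.ext h)
  have hz : ∀ a : ZMod 2, a ≠ 0 → a = 1 := by decide
  let T : Finset (List Bool) := (Finset.univ.filter fun u : U => x u = 1).image Subtype.val
  have hT : ∀ u (hu : u ∈ U), u ∈ T ↔ x ⟨u, hu⟩ = 1 := by
    intro u hu
    simp only [T, Finset.mem_image, Finset.mem_filter, Finset.mem_univ, true_and]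
    constructor
    · rintro ⟨v, hv, rfl⟩
      exact hv
    · intro h
      exact ⟨⟨u, hu⟩, h, rfl⟩
  have hTU : T ⊆ U := by
    intro u hu
    obtain ⟨v, -, rfl⟩ := Finset.mem_image.1 hu
    exact v.2
  refine ⟨T, hTU, ?_, ?_⟩
  · obtain ⟨u, hu⟩ : ∃ u, x u ≠ 0 := by
      by_contra hcon
      push Not at hcon
      exact hx0 (funext hcon)
    exact ⟨u.1, (hT u.1 u.2).2 (hz _ hu)⟩
  · intro p hp
    have h3 := (hev x p).1 (hx p hp)
    rw [← h3]
    unfold val
    congr 2
    funext u
    by_cases hu : u ∈ U
    · simp only [g, dif_pos hu, eval_X]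
      unfold ind
      have h4 : u ∈ A ∪ (T : Set (List Bool)) ↔ x ⟨u, hu⟩ = 1 := by
        rw [Set.mem_union, Finset.mem_coe, hT u hu]
        constructor
        · rintro (h5 | h5)
          · exact absurd h5 (hUA u hu)
          · exact h5
        · exact Or.inr
      by_cases h5 : x ⟨u, hu⟩ = 1
      · rw [if_pos (h4.2 h5), h5]
      · rw [if_neg fun h6 => h5 (h4.1 h6)]
        by_contra h6
        exact h5 (hz _ h6)
    · simp only [g, dif_neg hu, eval_C]
      unfold ind
      have h4 : u ∈ A ∪ (T : Set (List Bool)) ↔ u ∈ A := by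
        rw [Set.mem_union, Finset.mem_coe]
        exact or_iff_left fun h5 => hu (hTU h5)
      by_cases h5 : u ∈ A
      · rw [if_pos h5, if_pos (h4.2 h5)]
      · rw [if_neg h5, if_neg fun h6 => h5 (h4.1 h6)]

end Pool.Agent.PFP
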