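import Pool.Agent.PFP.CDefs

/-!
Every short rule is solved by polynomials: the bits of the oracle at the strings `false :: w` are
free, the bits at the strings `true :: w` are polynomials of degree at most `|w|` in them.
-/

set_option autoImplicit false

namespace Pool.Agent.PFP

open MvPolynomial

/-- the polynomial of the free part that gives the bit at a string -/
noncomputable def lam (Λ : List Bool → List (List (List Bool))) : List Bool → Pol
  | [] => 0
  | false :: w => X w
  | true :: w => ((Λ w).map fun M =>
      (M.map fun u => if _h : u.length ≤ w.length then lam Λ u else 0).prod).sum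
termination_by x => x.length
decreasing_by
  simp only [List.length_cons]
  omega

lemma lam_nil (Λ : List Bool → List (List (List Bool))) : lam Λ [] = 0 := by
  rw [lam]

lemma lam_false (Λ : List Bool → List (List (List Bool))) (w : List Bool) :
    lam Λ (false :: w) = X w := by
  rw [lam]

lemma lam_true {Λ : List Bool → List (List (List Bool))}
    (hΛ : ∀ w, ∀ M ∈ Λ w, (M.map List.length).sum ≤ w.length) (w : List Bool) :
    lam Λ (true :: w) = ((Λ w).map fun M => (M.map fun u => lam Λ u).prod).sum := by
  rw [lam]
  congr 1
  apply List.map_congr_left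
  intro M hM
  congr 1
  apply List.map_congr_left
  intro u hu
  have h1 : u.length ≤ w.length :=
    (List.single_le_sum (l := M.map List.length) (fun _ _ => Nat.zero_le _) _
      (List.mem_map_of_mem hu)).trans (hΛ w M hM)
  rw [dif_pos h1]

lemma totalDegree_list_sum_le {σ : Type*} (L : List (MvPolynomial σ (ZMod 2))) (d : ℕ)
    (h : ∀ p ∈ L, p.totalDegree ≤ d) : L.sum.totalDegree ≤ d := by
  induction L with
  | nil =>
    rw [List.sum_nil, totalDegree_zero]
    exact Nat.zero_le _
  | cons p L ih =>
    rw [List.sum_cons]
    refine (totalDegree_add _ _).trans (max_le (h p List.mem_cons_self) ?_)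
    exact ih fun q hq => h q (List.mem_cons_of_mem _ hq)

lemma totalDegree_lam {Λ : List Bool → List (List (List Bool))}
    (hΛ : ∀ w, ∀ M ∈ Λ w, (M.map List.length).sum ≤ w.length) (x : List Bool) : (lam Λ x).totalDegree ≤ x.length := by
  induction hn : x.length using Nat.strong_induction_on generalizing x with
  | _ n ih =>
    subst hn
    match x with
    | [] =>
      rw [lam_nil, totalDegree_zero]
      exact Nat.zero_le _
    | false :: w =>
      rw [lam_false, totalDegree_X, List.length_cons]
      omega
    | true :: w =>
      rw [lam_true hΛ]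
      apply totalDegree_list_sum_le
      intro p hp
      obtain ⟨M, hM, rfl⟩ := List.mem_map.1 hp
      have h1 := hΛ w M hM
      have h2 : ∀ M' : List (List Bool), (∀ u ∈ M', u ∈ M) →
          ((M'.map fun u => lam Λ u).prod).totalDegree ≤ (M'.map List.length).sum := by
        intro M' hM'
        induction M' with
        | nil =>
          rw [List.map_nil, List.prod_nil, totalDegree_one]
          exact Nat.zero_le _
        | cons u M' ihM =>
          rw [List.map_cons, List.prod_cons, List.map_cons, List.sum_cons]
          refine (totalDegree_mul _ _).trans ?_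
          have h3 : u.length ≤ w.length :=
            (List.single_le_sum (l := M.map List.length) (fun _ _ => Nat.zero_le _) _
              (List.mem_map_of_mem (hM' u List.mem_cons_self))).trans h1
          exact Nat.add_le_add (ih u.length (by rw [List.length_cons]; omega) u rfl)
            (ihM fun v hv => hM' v (List.mem_cons_of_mem _ hv))
      have h4 := h2 M fun _ h => h
      rw [List.length_cons]
      omega

open Classical in
lemma val_prod_lam (Λ : List Bool → List (List (List Bool))) (A : Set (List Bool))
    (M : List (List Bool)) :
    val A ((M.map fun u => lam Λ u).prod) = if ∀ u ∈ M, u ∈ Phi (lam Λ) A then 1 else 0 := by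
  have hz : ∀ a : ZMod 2, a ≠ 1 → a = 0 := by decide
  induction M with
  | nil =>
    rw [List.map_nil, List.prod_nil, if_pos fun u hu => absurd hu List.not_mem_nil]
    unfold val
    rw [map_one]
  | cons u M ih =>
    rw [List.map_cons, List.prod_cons]
    have h1 : val A (lam Λ u * (M.map fun u => lam Λ u).prod) =
        val A (lam Λ u) * val A ((M.map fun u => lam Λ u).prod) := by
      unfold val
      rw [map_mul]
    rw [h1, ih]
    by_cases h2 : val A (lam Λ u) = 1
    · rw [h2, one_mul]
      by_cases h3 : ∀ v ∈ M, v ∈ Phi (lam Λ) A
      · rw [if_pos h3, if_pos]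
        intro v hv
        rcases List.mem_cons.1 hv with rfl | hv
        · exact h2
        · exact h3 v hv
      · rw [if_neg h3, if_neg]
        intro h4
        exact h3 fun v hv => h4 v (List.mem_cons_of_mem _ hv)
    · rw [hz _ h2, zero_mul, if_neg]
      intro h4
      exact h2 (h4 u List.mem_cons_self)

open Classical in
lemma val_list_sum (A : Set (List Bool)) (Λ : List Bool → List (List (List Bool)))
    (F : List (List (List Bool))) :
    val A ((F.map fun M => (M.map fun u => lam Λ u).prod).sum) =
      ((F.countP fun M => ∀ u ∈ M, u ∈ Phi (lam Λ) A : ℕ) : ZMod 2) := by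
  induction F with
  | nil =>
    rw [List.map_nil, List.sum_nil, List.countP_nil, Nat.cast_zero]
    unfold val
    rw [map_zero]
  | cons M F ih =>
    rw [List.map_cons, List.sum_cons, List.countP_cons]
    have h1 : val A ((M.map fun u => lam Λ u).prod +
        (F.map fun M => (M.map fun u => lam Λ u).prod).sum) =
        val A ((M.map fun u => lam Λ u).prod) +
          val A ((F.map fun M => (M.map fun u => lam Λ u).prod).sum) := by
      unfold val
      rw [map_add]
    rw [h1, ih, val_prod_lam]
    by_cases h2 : ∀ u ∈ M, u ∈ Phi (lam Λ) A
    · rw [if_pos h2, if_pos (by simpa using h2)]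
      push_cast
      ring
    · rw [if_neg h2, if_neg (by simpa using h2)]
      push_cast
      ring

/-- **The closure.** -/
theorem exists_lam (Λ : List Bool → List (List (List Bool)))
    (hΛ : ∀ w, ∀ M ∈ Λ w, (M.map List.length).sum ≤ w.length) :
    ∃ lam : List Bool → Pol, (∀ w, (lam w).totalDegree ≤ w.length) ∧
      (∀ w, lam (false :: w) = MvPolynomial.X w) ∧
      ∀ (A₀ : Set (List Bool)) (w : List Bool),
        true :: w ∈ Phi lam A₀ ↔ Par (Phi lam A₀) (Λ w) := by
  refine ⟨lam Λ, totalDegree_lam hΛ, lam_false Λ, ?_⟩
  intro A w
  have h1 : (true :: w ∈ Phi (lam Λ) A) = (val A (lam Λ (true :: w)) = 1) := rfl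
  rw [h1, lam_true hΛ, val_list_sum, ZMod.natCast_eq_one_iff_odd, List.countP_eq_length_filter]
  rfl

end Pool.Agent.PFP
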