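import Pool.Agent.PFP.Block
import Pool.Agent.MP_92db0f_lc_alg.Machines

/-!
Configurations: free parts into which a set of addresses is coded by blocks.
-/

set_option autoImplicit false

namespace Pool.Agent.PFP

open Lib.helper60 MP_92db0f_lc_alg

/-- a block is marked iff one of its strings belongs to the free part -/
theorem Conf.marked {cl : List Bool → ℕ} (κ : Conf cl) (z : List Bool) :
    z ∈ κ.G ↔ ∃ b : List Bool, b.length = cl z ∧ encPair (z, b) ∈ κ.A := by
  constructor
  · exact κ.ex z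
  · rintro ⟨b, hb, h⟩
    obtain ⟨z', hz', b', hb', he⟩ := κ.mem _ h
    have h1 := encPair_inj he
    rw [Prod.mk.injEq] at h1
    exact h1.1 ▸ hz'

/-- One block is marked, invisibly for the polynomials `S`. -/
theorem Conf.add {cl : List Bool → ℕ} (κ : Conf cl) {z : List Bool} (hz : z ∉ κ.G)
    (S : Finset Pol) (hS : wt S < 2 ^ cl z) :
    ∃ κ' : Conf cl, κ'.G = insert z κ.G ∧ Agree κ.A κ'.A S ∧
      ∀ x : List Bool, x.length < cl z → (x ∈ κ'.A ↔ x ∈ κ.A) := by
  classical
  -- the block
  let f : (Fin (cl z) → Bool) → List Bool := fun b => encPair (z, List.ofFn b)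
  have hf : Function.Injective f := by
    intro b b' h
    have h1 := encPair_inj h
    rw [Prod.mk.injEq] at h1
    exact List.ofFn_injective h1.2
  let U : Finset (List Bool) := Finset.univ.image f
  have hU : U.card = 2 ^ cl z := by
    rw [Finset.card_image_of_injective _ hf, Finset.card_univ, Fintype.card_fun,
      Fintype.card_bool, Fintype.card_fin]
  have hUm : ∀ x ∈ U, ∃ b : List Bool, b.length = cl z ∧ x = encPair (z, b) := by
    intro x hx
    obtain ⟨b, -, rfl⟩ := Finset.mem_image.1 hx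
    exact ⟨List.ofFn b, List.length_ofFn, rfl⟩
  have hUA : ∀ x ∈ U, x ∉ κ.A := by
    intro x hx hxA
    obtain ⟨b, hb, rfl⟩ := hUm x hx
    exact hz ((κ.marked z).2 ⟨b, hb, hxA⟩)
  have hdeg : ∑ p ∈ S, p.totalDegree < U.card := by
    rw [hU]
    refine lt_of_le_of_lt ?_ hS
    unfold wt
    exact Finset.sum_le_sum fun p _ => Nat.le_succ _
  obtain ⟨T, hTU, hTn, hT⟩ := exists_invisible κ.A U S hUA hdeg
  refine ⟨⟨insert z κ.G, κ.A ∪ (T : Set (List Bool)), ?_, ?_⟩, rfl, hT, ?_⟩
  · rintro x (hx | hx)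
    · obtain ⟨z', hz', b, hb, he⟩ := κ.mem x hx
      exact ⟨z', Or.inr hz', b, hb, he⟩
    · obtain ⟨b, hb, he⟩ := hUm x (hTU hx)
      exact ⟨z, Or.inl rfl, b, hb, he⟩
  · rintro z' (rfl | hz')
    · obtain ⟨x, hx⟩ := hTn
      obtain ⟨b, hb, rfl⟩ := hUm x (hTU hx)
      exact ⟨b, hb, Or.inr hx⟩
    · obtain ⟨b, hb, h⟩ := κ.ex z' hz'
      exact ⟨b, hb, Or.inl h⟩
  · intro x hx
    constructor
    · rintro (h | h)
      · exact h
      · exfalso
        obtain ⟨b, hb, rfl⟩ := hUm x (hTU h)
        unfold encPair at hx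
        simp only [List.length_append, List.length_cons] at hx
        omega
    · intro h
      exact Or.inl h

/-- the initial configuration -/
def Conf.init (cl : List Bool → ℕ) : Conf cl where
  G := ∅
  A := ∅
  mem := fun _ h => absurd h (Set.notMem_empty _)
  ex := fun _ h => absurd h (Set.notMem_empty _)

end Pool.Agent.PFP
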