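import Pool.Agent.PFP.Defs
import Pool.Agent.MP_92db0f_lc_mul.Machines

/-!
The multilinear extension over rings of characteristic two, whose elements are written additively,
answers parity questions.
-/

set_option autoImplicit false

namespace Pool.Agent.PFP

open Turing Computability Lib.helper60
open MP_92db0f_lc (length_encPair)
open MP_92db0f_lc_alg (answers PolyTime InP encList)
open MP_92db0f_lc_mul (mext mquery mextOracle mquery_inj Pt)

open Classical in
/-- the strings whose parity gives the bit of the multilinear extension with the code `w` -/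
noncomputable def extSet {E : ℕ → Type} [∀ i, CommRing (E i)] {len : ℕ → ℕ}
    (cod : (i : ℕ) → E i → Fin (len i) → Bool) (w : List Bool) : Finset (List Bool) :=
  if h : ∃ (i n : ℕ) (y : Fin n → E i) (b : Fin (len i)), w = mquery cod i (List.ofFn y) b then
    (Finset.univ.filter fun x : Fin h.choose_spec.choose → Bool =>
      cod h.choose (∏ j, (if x j then h.choose_spec.choose_spec.choose j
        else 1 - h.choose_spec.choose_spec.choose j))
        h.choose_spec.choose_spec.choose_spec.choose = true).image List.ofFn
  else ∅

section

variable {E : ℕ → Type} [∀ i, CommRing (E i)] {len : ℕ → ℕ}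

open Classical in
/-- the points that matter for the bit `b` of the value at `y` -/
noncomputable def extPts (cod : (i : ℕ) → E i → Fin (len i) → Bool) (i : ℕ) {n : ℕ}
    (y : Fin n → E i) (b : Fin (len i)) : Finset (List Bool) :=
  (Finset.univ.filter fun x : Fin n → Bool =>
    cod i (∏ j, (if x j then y j else 1 - y j)) b = true).image List.ofFn

lemma extSet_spec (cod : (i : ℕ) → E i → Fin (len i) → Bool) (w : List Bool)
    (h : ∃ (i n : ℕ) (y : Fin n → E i) (b : Fin (len i)), w = mquery cod i (List.ofFn y) b) :
    ∃ (i n : ℕ) (y : Fin n → E i) (b : Fin (len i)), w = mquery cod i (List.ofFn y) b ∧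
      extSet cod w = extPts cod i y b := by
  classical
  refine ⟨h.choose, h.choose_spec.choose, h.choose_spec.choose_spec.choose,
    h.choose_spec.choose_spec.choose_spec.choose,
    h.choose_spec.choose_spec.choose_spec.choose_spec, ?_⟩
  unfold extSet extPts
  rw [dif_pos h]

lemma extPts_congr (cod : (i : ℕ) → E i → Fin (len i) → Bool) {i i' n n' : ℕ} {y : Fin n → E i}
    {y' : Fin n' → E i'} {b : Fin (len i)} {b' : Fin (len i')}
    (h : (⟨n, i, y⟩ : Pt E) = ⟨n', i', y'⟩) (hb : (b : ℕ) = b') :
    extPts cod i y b = extPts cod i' y' b' := by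
  cases h
  rw [Fin.ext hb]

lemma extSet_mquery (cod : (i : ℕ) → E i → Fin (len i) → Bool)
    (hcod : ∀ i, Function.Injective (cod i)) (i : ℕ) {n : ℕ} (y : Fin n → E i)
    (b : Fin (len i)) :
    extSet cod (mquery cod i (List.ofFn y) b) = extPts cod i y b := by
  obtain ⟨i', n', y', b', h1, h2⟩ :=
    extSet_spec cod (mquery cod i (List.ofFn y) b) ⟨i, n, y, b, rfl⟩
  obtain ⟨h3, h4⟩ := mquery_inj hcod h1
  rw [h2]
  exact (extPts_congr cod h3 h4).symm

lemma length_le_encList (l : List (List Bool)) : l.length ≤ (encList l).length := by
  induction l with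
  | nil => exact Nat.zero_le _
  | cons w l ih =>
    rw [encList, length_encPair, List.length_cons]
    omega

lemma extSet_len (cod : (i : ℕ) → E i → Fin (len i) → Bool) (w : List Bool) :
    ∀ u ∈ extSet cod w, u.length ≤ w.length := by
  classical
  intro u hu
  by_cases h : ∃ (i n : ℕ) (y : Fin n → E i) (b : Fin (len i)), w = mquery cod i (List.ofFn y) b
  · obtain ⟨i, n, y, b, h1, h2⟩ := extSet_spec cod w h
    rw [h2] at hu
    unfold extPts at hu
    obtain ⟨x, -, rfl⟩ := Finset.mem_image.1 hu
    have h3 := length_le_encList ((List.ofFn y).map fun t => List.ofFn (cod i t))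
    rw [List.length_map, List.length_ofFn] at h3
    rw [List.length_ofFn, h1]
    unfold mquery
    rw [length_encPair, length_encPair]
    omega
  · unfold extSet at hu
    rw [dif_neg h] at hu
    exact absurd hu (Finset.notMem_empty _)

/-- the rule of the multilinear extension -/
noncomputable def extRule (cod : (i : ℕ) → E i → Fin (len i) → Bool) (w : List Bool) :
    List (List (List Bool)) := (extSet cod w).toList.map fun u => [u]

theorem extRule_len (cod : (i : ℕ) → E i → Fin (len i) → Bool) (w : List Bool) :
    ∀ M ∈ extRule cod w, (M.map List.length).sum ≤ w.length := by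
  intro M hM
  unfold extRule at hM
  obtain ⟨u, hu, rfl⟩ := List.mem_map.1 hM
  rw [Finset.mem_toList] at hu
  simpa using extSet_len cod w u hu

theorem par_singletons (A : Set (List Bool)) (S : Finset (List Bool)) :
    Par A (S.toList.map fun u => [u]) ↔ Odd (A ∩ (S : Set (List Bool))).ncard := by
  classical
  have h1 : A ∩ (S : Set (List Bool)) = ((S.filter fun u => u ∈ A : Finset (List Bool)) :
      Set (List Bool)) := by
    ext u
    simp only [Set.mem_inter_iff, Finset.mem_coe, Finset.mem_filter]
    tauto
  have h2 : ((S.toList.map fun u => [u]).filter fun M => decide (∀ u ∈ M, u ∈ A)).length =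
      (S.filter fun u => u ∈ A).card := by
    rw [List.filter_map, List.length_map]
    have h3 : (S.toList.filter ((fun M : List (List Bool) => decide (∀ u ∈ M, u ∈ A)) ∘
        fun u => [u])) = S.toList.filter fun u => decide (u ∈ A) := by
      apply List.filter_congr
      intro u _
      simp
    rw [h3, Finset.card_def, Finset.filter_val, ← Multiset.coe_card, ← Multiset.filter_coe,
      Finset.coe_toList]
  unfold Par
  rw [h1, Set.ncard_coe_finset, ← h2]

/-- the additive coding of a sum -/
lemma cod_sum {R : Type} [CommRing R] {l : ℕ} (c : R → Fin l → Bool)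
    (hadd : ∀ x y j, c (x + y) j = xor (c x j) (c y j)) {ι : Type} (s : Finset ι) (f : ι → R)
    (j : Fin l) : c (∑ i ∈ s, f i) j = true ↔ Odd (s.filter fun i => c (f i) j = true).card := by
  classical
  have h0 : ∀ j, c 0 j = false := by
    intro j
    have h1 := hadd 0 0 j
    rw [add_zero] at h1
    rw [h1]
    exact Bool.xor_self _
  induction s using Finset.induction_on with
  | empty => simp [h0]
  | insert i s hi ih =>
    rw [Finset.sum_insert hi, hadd, Finset.filter_insert]
    by_cases h : c (f i) j = true
    · rw [if_pos h, Finset.card_insert_of_notMem (fun h' => hi (Finset.mem_filter.1 h').1),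
        Nat.odd_add_one, h, Bool.true_xor, Bool.not_eq_true', ← Bool.not_eq_true]
      exact not_congr ih
    · rw [if_neg h]
      rw [Bool.not_eq_true] at h
      rw [h, Bool.false_xor]
      exact ih

/-- If the strings `pre w` of the oracle follow the rule of the multilinear extension, then they
are the multilinear extension. -/
theorem mextOracle_eq' (cod : (i : ℕ) → E i → Fin (len i) → Bool)
    (hcod : ∀ i, Function.Injective (cod i))
    (hadd : ∀ i x y j, cod i (x + y) j = xor (cod i x j) (cod i y j)) (A : Set (List Bool))
    (pre : List Bool → List Bool) (hpre : ∀ w, pre w ∈ A ↔ Par A (extRule cod w)) :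
    mextOracle cod A = {w | pre w ∈ A} := by
  classical
  have hA : ∀ w, pre w ∈ A ↔ Odd (A ∩ (extSet cod w : Set (List Bool))).ncard := fun w =>
    (hpre w).trans (par_singletons A _)
  have key : ∀ (i n : ℕ) (y : Fin n → E i) (b : Fin (len i)),
      pre (mquery cod i (List.ofFn y) b) ∈ A ↔ cod i (mext A y) b = true := by
    intro i n y b
    rw [hA, extSet_mquery cod hcod]
    have h1 : A ∩ (extPts cod i y b : Set (List Bool)) =
        (((Finset.univ.filter fun x : Fin n → Bool => cod i (if List.ofFn x ∈ A then
          ∏ j, (if x j then y j else 1 - y j) else 0) b = true).image List.ofFn :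
          Finset (List Bool)) : Set (List Bool)) := by
      have h0 : cod i 0 b = false := by
        have h2 := hadd i 0 0 b
        rw [add_zero] at h2
        rw [h2]
        exact Bool.xor_self _
      ext u
      unfold extPts
      simp only [Set.mem_inter_iff, Finset.coe_image, Set.mem_image, Finset.mem_coe,
        Finset.mem_filter, Finset.mem_univ, true_and]
      constructor
      · rintro ⟨hu, x, hx, rfl⟩
        exact ⟨x, by rw [if_pos hu]; exact hx, rfl⟩
      · rintro ⟨x, hx, rfl⟩
        by_cases hu : List.ofFn x ∈ A
        · rw [if_pos hu] at hx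
          exact ⟨hu, x, hx, rfl⟩
        · rw [if_neg hu, h0] at hx
          exact absurd hx Bool.false_ne_true
    rw [h1, Set.ncard_coe_finset, Finset.card_image_of_injective _ List.ofFn_injective]
    unfold mext
    rw [cod_sum (cod i) (hadd i)]
  ext w
  constructor
  · rintro ⟨i, n, y, b, rfl, h⟩
    exact (key i n y b).2 h
  · intro h
    change pre w ∈ A at h
    by_cases hw : ∃ (i n : ℕ) (y : Fin n → E i) (b : Fin (len i)),
        w = mquery cod i (List.ofFn y) b
    · obtain ⟨i, n, y, b, rfl⟩ := hw
      exact ⟨i, n, y, b, rfl, (key i n y b).1 h⟩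
    · exfalso
      rw [hA] at h
      unfold extSet at h
      rw [dif_neg hw] at h
      simp at h

theorem mextOracle_eq (cod : (i : ℕ) → E i → Fin (len i) → Bool)
    (hcod : ∀ i, Function.Injective (cod i))
    (hadd : ∀ i x y j, cod i (x + y) j = xor (cod i x j) (cod i y j)) (A : Set (List Bool))
    (hA : ∀ w, true :: true :: w ∈ A ↔ Par A (extRule cod w)) :
    mextOracle cod A = {w | true :: true :: w ∈ A} :=
  mextOracle_eq' cod hcod hadd A (fun w => true :: true :: w) hA

end

/-- prefixing a query by a fixed string takes polynomial time -/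
theorem inP_prefix (A : Set (List Bool)) (v : List Bool) : InP A {w | v ++ w ∈ A} := by
  refine ⟨fun z => v ++ z.1, fun z => z.2.headD false, 1, ?_, ?_, ?_⟩
  · refine PT.toTM2 (F := fun w => v ++ (unpair w).1) ?_ ?_
    · exact PT.append (PT.const v) PT_unpair.p1
    · intro a
      simp only [unpair_enc]
  · refine PT.decider (F := fun w => (unpair w).2.headD false) ?_ ?_
    · exact PT.headD PT_unpair.p2 (PT.const false)
    · intro a
      simp only [unpair_enc]
  · intro x
    simp [answers]

theorem inP_cons (A : Set (List Bool)) : InP A {w | true :: true :: w ∈ A} :=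
  inP_prefix A [true, true]

end Pool.Agent.PFP
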