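import Pool.Agent.PFP.Legal

/-!
The limit oracle, by an extremal principle.
-/

set_option autoImplicit false

namespace Pool.Agent.PFP

open Lib.helper60
open MP_92db0f_lc_alg (nn encPair_inj)
open MP_92db0f_lc_thr (cls Dg mem_cls hs hs_congr)

variable {Y : Sys}

/-- `b` is obtained from `a` by steps -/
def Reach (a b : LC Y) : Prop := Relation.ReflTransGen (fun a b => ∃ t, StepAt t a b) a b

/-- no step at a class at most `t` is possible any more -/
def Stable (t : ℕ) (a : LC Y) : Prop := ∀ b, Reach a b → ∀ j ≤ t, ∀ d, ¬ StepAt j b d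

lemma Reach.mono {a b : LC Y} (h : Reach a b) (r : Y.Req) : a.c r ≤ b.c r := by
  induction h with
  | refl => exact le_rfl
  | tail _ hs ih =>
    obtain ⟨m, hs⟩ := hs
    exact ih.trans (hs.mono r)

lemma Reach.Hc_mono {a b : LC Y} (h : Reach a b) (t : ℕ) : Hc Y a.c t ≤ Hc Y b.c t :=
  Finset.sum_le_sum fun _ _ => Finset.sum_le_sum fun r _ => h.mono r

lemma Stable.reach {t : ℕ} {a b : LC Y} (h : Stable t a) (hab : Reach a b) : Stable t b :=
  fun d hd => h d (hab.trans hd)

lemma Stable.mono {t j : ℕ} {a : LC Y} (h : Stable t a) (hj : j ≤ t) : Stable j a :=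
  fun d hd i hi => h d hd i (hi.trans hj)

/-- what does not change any more -/
lemma Stable.keep {t : ℕ} {a b : LC Y} (h : Stable t a) (hab : Reach a b) :
    (∀ r, cls (Y.lv r) ≤ t → b.c r = a.c r ∧ (b.on r ↔ a.on r) ∧
      (a.on r → b.Sf r = a.Sf r ∧ Agree a.κ.A b.κ.A (a.Sf r))) ∧
    ∀ x : List Bool, x.length < 5 * t + 10 → (x ∈ b.κ.A ↔ x ∈ a.κ.A) := by
  induction hab with
  | refl => exact ⟨fun r _ => ⟨rfl, Iff.rfl, fun _ => ⟨rfl, Agree.refl _ _⟩⟩, fun _ _ => Iff.rfl⟩
  | @tail b d hab hs ih =>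
    obtain ⟨h1, h3⟩ := ih
    obtain ⟨j, hs⟩ := hs
    have hj : t < j := by
      by_contra hle
      exact h b hab j (by omega) d hs
    refine ⟨fun r hr => ?_, fun w hw => (hs.out w (by omega)).trans (h3 w hw)⟩
    obtain ⟨h4, h5, h6⟩ := h1 r hr
    obtain ⟨h7, h8, h9⟩ := hs.keep r (by omega)
    refine ⟨h7.trans h4, h8.trans h5, fun ho => ?_⟩
    obtain ⟨h10, h11⟩ := h6 ho
    obtain ⟨h12, h13⟩ := h9 (h5.2 ho)
    rw [h10] at h12 h13
    exact ⟨h12, h11.trans h13⟩

lemma Stable.Hc_eq {t : ℕ} {a b : LC Y} (h : Stable t a) (hab : Reach a b) :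
    Hc Y b.c t = Hc Y a.c t := by
  apply Finset.sum_congr rfl
  intro m hm
  apply Finset.sum_congr rfl
  intro r hr
  rw [mem_cls] at hm
  have h1 := (Y.mem_Rq m r).1 hr
  exact ((h.keep hab).1 r (by rw [h1, hm])).1

/-- maximal number of steps at the next class -/
lemma exists_stable (t : ℕ) (a : LC Y) (h : ∀ j < t, Stable j a) :
    ∃ b, Reach a b ∧ Stable t b := by
  classical
  let P : ℕ → Prop := fun k => ∃ b, Reach a b ∧ Hc Y b.c t = k
  have hP : ∃ k, P k := ⟨_, a, Relation.ReflTransGen.refl, rfl⟩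
  have hb : ∀ k, P k → k ≤ 2 ^ Dg t := by
    rintro k ⟨b, _, rfl⟩
    have := b.Hc_lt t
    omega
  obtain ⟨b, hab, hbt⟩ : P (Nat.findGreatest P (2 ^ Dg t)) := by
    obtain ⟨k, hk⟩ := hP
    exact Nat.findGreatest_spec (hb k hk) hk
  refine ⟨b, hab, ?_⟩
  intro d hbd j hj e he
  rcases Nat.lt_or_ge j t with hlt | hge
  · exact h j hlt d (hab.trans hbd) j le_rfl e he
  · have hjm : j = t := le_antisymm hj hge
    subst hjm
    have h1 : P (Hc Y e.c j) := ⟨e, (hab.trans hbd).tail ⟨j, he⟩, rfl⟩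
    have h2 := Nat.le_findGreatest (hb _ h1) h1
    have h3 := hbd.Hc_mono j
    have h4 := he.inc
    omega

/-- the sequence of configurations -/
lemma exists_seq (Y : Sys) : ∃ f : ℕ → LC Y, (∀ t, Stable t (f t)) ∧
    ∀ t n, t ≤ n → Reach (f t) (f n) := by
  obtain ⟨a₀, -, h₀⟩ := exists_stable 0 (LC.init Y) (fun j hj => absurd hj (by omega))
  have hstep : ∀ (t : ℕ) (a : {a : LC Y // Stable t a}),
      ∃ b : {b : LC Y // Stable (t + 1) b}, Reach a.1 b.1 := by
    rintro t ⟨a, ha⟩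
    obtain ⟨b, hb, hb'⟩ := exists_stable (t + 1) a (fun j hj => ha.mono (by omega))
    exact ⟨⟨b, hb'⟩, hb⟩
  choose g hg using hstep
  let f : (t : ℕ) → {a : LC Y // Stable t a} := fun t =>
    Nat.rec (motive := fun t => {a : LC Y // Stable t a}) ⟨a₀, h₀⟩ g t
  refine ⟨fun t => (f t).1, fun t => (f t).2, ?_⟩
  intro t n htn
  induction n, htn using Nat.le_induction with
  | base => exact Relation.ReflTransGen.refl
  | succ n _ ih => exact ih.trans (hg n (f n))

/-- a block is marked iff it contains a string of the oracle -/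
lemma LC.marked (a : LC Y) (z : List Bool) :
    z ∈ a.κ.G ↔ ∃ b, b.length = Y.cl z ∧ encPair (z, b) ∈ a.κ.A := by
  constructor
  · exact a.κ.ex z
  · rintro ⟨b, hb, hm⟩
    obtain ⟨z', hz', b', hb', he⟩ := a.κ.mem _ hm
    have h1 := encPair_inj he
    rw [Prod.mk.injEq] at h1
    exact h1.1 ▸ hz'

/-- **The limit oracle.** -/
theorem exists_limit (Y : Sys) : ∃ (A : Set (List Bool)) (H : ℕ → ℕ) (on : Y.Req → Prop),
    (∀ t, H t < 2 ^ Dg t) ∧ (∀ r, Y.acc A r ↔ on r) ∧
    (∀ t u, u.length < Dg t →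
      ((∃ b, b.length = Y.cl (Y.cdH t u) ∧ encPair (Y.cdH t u, b) ∈ A) ↔ nn (Dg t) u ≤ H t)) ∧
    ∀ r, (∃ b, b.length = Y.cl (Y.cdV r (hs Dg H (Y.τ (Y.lv r)))) ∧
      encPair (Y.cdV r (hs Dg H (Y.τ (Y.lv r))), b) ∈ A) ↔ on r := by
  classical
  obtain ⟨f, hf, hr⟩ := exists_seq Y
  -- stability
  have hH : ∀ t M, t ≤ M → Hc Y (f M).c t = Hc Y (f t).c t := fun t M hM =>
    (hf t).Hc_eq (hr _ _ hM)
  have hon : ∀ r M, cls (Y.lv r) ≤ M → ((f M).on r ↔ (f (cls (Y.lv r))).on r) := fun r M hM =>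
    (((hf (cls (Y.lv r))).keep (hr _ _ hM)).1 r le_rfl).2.1
  have hA : ∀ (x : List Bool) M, x.length ≤ M → (x ∈ (f M).κ.A ↔ x ∈ (f x.length).κ.A) :=
    fun x M hM => ((hf x.length).keep (hr _ _ hM)).2 x (by omega)
  let A : Set (List Bool) := {x | x ∈ (f x.length).κ.A}
  have hval : ∀ (p : Pol) M, pl p ≤ M → val A p = val (f M).κ.A p := by
    intro p M hM
    apply val_congr
    intro x hx
    exact (hA x M (by omega)).symm
  -- marked blocks
  have hmark : ∀ z M, (∀ b, b.length = Y.cl z → (encPair (z, b)).length ≤ M) →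
      ((∃ b, b.length = Y.cl z ∧ encPair (z, b) ∈ A) ↔ z ∈ (f M).κ.G) := by
    intro z M hM
    rw [LC.marked]
    apply exists_congr
    intro b
    refine and_congr_right fun hb => ?_
    change encPair (z, b) ∈ (f (encPair (z, b)).length).κ.A ↔ _
    exact (hA _ M (hM b hb)).symm
  -- the strings of a block have bounded length
  have hbd : ∀ z, ∃ M, ∀ b, b.length = Y.cl z → (encPair (z, b)).length ≤ M := by
    intro z
    obtain ⟨M, hM⟩ := ((List.finite_length_eq Bool (Y.cl z)).image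
      fun b => (encPair (z, b)).length).bddAbove
    exact ⟨M, fun b hb => hM ⟨b, hb, rfl⟩⟩
  refine ⟨A, fun t => Hc Y (f t).c t, fun r => (f (cls (Y.lv r))).on r, ?_, ?_, ?_, ?_⟩
  · intro t
    have := (f t).Hc_lt t
    dsimp only
    omega
  · intro r
    constructor
    · intro hacc
      by_contra ho
      dsimp only at ho
      obtain ⟨S, -, hS⟩ := Y.use A r hacc
      let M := cls (Y.lv r) + S.sup pl
      have hM : Agree A (f M).κ.A S := by
        intro p hp
        apply hval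
        have := Finset.le_sup (f := pl) hp
        omega
      have h1 := hS _ hM
      have h2 : ¬ (f M).on r := by
        rw [hon r M (by omega)]
        exact ho
      obtain ⟨b, hb⟩ := (f M).act r h2 h1
      exact hf M (f M) Relation.ReflTransGen.refl (cls (Y.lv r)) (by omega) b hb
    · intro ho
      dsimp only at ho
      have h1 := (f (cls (Y.lv r))).cert r ho
      apply h1.2
      intro p hp
      let M := cls (Y.lv r) + pl p
      have h2 := (((hf (cls (Y.lv r))).keep (hr (cls (Y.lv r)) M (by omega))).1 r le_rfl).2.2 ho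
      exact (h2.2 p hp).trans (hval p M (by omega)).symm
  · intro t u hu
    dsimp only
    obtain ⟨M₀, hM₀⟩ := hbd (Y.cdH t u)
    let M := t + M₀
    rw [hmark _ M (fun b hb => (hM₀ b hb).trans (by omega)), (f M).markH t u hu, hH t M (by omega)]
  · intro r
    dsimp only
    obtain ⟨v, hv⟩ : ∃ v, v = hs Dg (fun t => Hc Y (f t).c t) (Y.τ (Y.lv r)) := ⟨_, rfl⟩
    rw [← hv]
    obtain ⟨M₀, hM₀⟩ := hbd (Y.cdV r v)
    let M := cls (Y.lv r) + M₀
    have hv' : v = hs Dg (Hc Y (f M).c) (Y.τ (Y.lv r)) := by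
      rw [hv]
      apply hs_congr
      intro i hi
      have h1 := Y.τ_le (Y.lv r)
      exact (hH i M (by omega)).symm
    rw [hmark _ M (fun b hb => (hM₀ b hb).trans (by omega)), ← hon r M (by omega),
      ← (f M).markV r, ← hv']

end Pool.Agent.PFP
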