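import Mathlib

/-!
The choice of rational exponents.
-/

set_option autoImplicit false

namespace Pool.Agent.PFP

lemma exists_rat_between {x y : ℝ} (h1 : 1 ≤ y) (h : x < y) :
    ∃ r : ℚ, (1 : ℝ) ≤ r ∧ (r : ℝ) ≤ y ∧ x < r := by
  rcases h1.eq_or_lt with h1 | h1
  · exact ⟨1, by simp, by rw [← h1]; simp, by rw [← h1] at h; simpa using h⟩
  · obtain ⟨r, hr1, hr2⟩ := exists_rat_btwn (max_lt h1 h)
    exact ⟨r, ((le_max_left _ _).trans hr1.le), hr2.le, (le_max_right _ _).trans_lt hr1⟩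

lemma exists_nat_div {r : ℚ} (hr : (0 : ℝ) < r) :
    ∃ a b : ℕ, 1 ≤ b ∧ 1 ≤ a ∧ (a : ℝ) / b = r := by
  have h0 : 0 < r := by exact_mod_cast hr
  have hd : (0 : ℝ) < r.den := by exact_mod_cast r.den_pos
  have hn : ((r.num.natAbs : ℕ) : ℝ) = (r.num : ℝ) := by
    rw [← Int.cast_natCast, Int.natAbs_of_nonneg (Rat.num_nonneg.mpr h0.le)]
  refine ⟨r.num.natAbs, r.den, r.den_pos, ?_, ?_⟩
  · have h1 : r.num ≠ 0 := Rat.num_ne_zero.2 h0.ne'
    exact Nat.one_le_iff_ne_zero.2 (Int.natAbs_ne_zero.2 h1)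
  · rw [hn, ← Rat.cast_def]

/-- the exponents `s' = S`, `t' = T` -/
lemma exists_nums_aux {s t : ℝ} {S T : ℚ} (hS1 : (1 : ℝ) ≤ S) (hS2 : (S : ℝ) ≤ s)
    (hT1 : (0 : ℝ) < T) (hT2 : (T : ℝ) ≤ t) (hST : (1 : ℝ) ≤ S * T) :
    ∃ a b p q : ℕ, 1 ≤ b ∧ b ≤ a ∧ 1 ≤ q ∧ 1 ≤ p ∧ (p : ℝ) / q ≤ t ∧
      ((a : ℝ) * q) / (b * p) ≤ s ∧ (b : ℝ) / a = 1 / (S * T) ∧ (q : ℝ) / p = 1 / T := by
  have hS0 : (0 : ℝ) < S := zero_lt_one.trans_le hS1
  obtain ⟨a, b, hb, ha, hr⟩ := exists_nat_div (r := S * T) (by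
    rw [Rat.cast_mul]
    positivity)
  obtain ⟨p, q, hq, hp, hr'⟩ := exists_nat_div hT1
  have hb0 : (0 : ℝ) < b := by exact_mod_cast hb
  have ha0 : (0 : ℝ) < a := by exact_mod_cast ha
  have hq0 : (0 : ℝ) < q := by exact_mod_cast hq
  have hp0 : (0 : ℝ) < p := by exact_mod_cast hp
  rw [Rat.cast_mul] at hr
  have e1 : (a : ℝ) = S * T * b := by rw [← hr]; field_simp
  have e2 : (p : ℝ) = T * q := by rw [← hr']; field_simp
  refine ⟨a, b, p, q, hb, ?_, hq, hp, by rw [hr']; exact hT2, ?_, ?_, ?_⟩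
  · have h1 : (b : ℝ) ≤ a := by
      rw [e1]
      nlinarith
    exact_mod_cast h1
  · have : ((a : ℝ) * q) / (b * p) = S := by
      rw [e1, e2]
      field_simp
    rw [this]
    exact hS2
  · rw [e1]
    field_simp
  · rw [e2]
    field_simp

theorem exists_nums {s t w : ℝ} (hs : 1 ≤ s) (hst : 1 + s < s ^ 2 * t) (hw : 1 < s * t * w) :
    ∃ a b p q : ℕ, 1 ≤ b ∧ b ≤ a ∧ 1 ≤ q ∧ 1 ≤ p ∧ (p : ℝ) / q ≤ t ∧
      ((a : ℝ) * q) / (b * p) ≤ s ∧ (b : ℝ) / a + (q : ℝ) / p ≤ s ∧ (b : ℝ) / a ≤ (q : ℝ) / p ∧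
      (b : ℝ) / a ≤ w := by
  have hs0 : 0 < s := zero_lt_one.trans_le hs
  have h1 : (1 + s) / s ^ 2 < t := by
    rw [div_lt_iff₀ (by positivity)]
    linarith
  have h10 : 0 < (1 + s) / s ^ 2 := by positivity
  have ht0 : 0 < t := h10.trans h1
  have hw0 : 0 < w := by
    by_contra h
    have h2 : s * t * w ≤ 0 := mul_nonpos_of_nonneg_of_nonpos (by positivity) (not_lt.1 h)
    linarith
  have h11 : 1 / (s * w) < t := by
    rw [div_lt_iff₀ (by positivity)]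
    linarith
  obtain ⟨T, hT1, hT2⟩ := exists_rat_btwn (max_lt h1 h11)
  have hT3 := (le_max_left _ _).trans_lt hT1
  have hT4 := (le_max_right _ _).trans_lt hT1
  have hT0 : (0 : ℝ) < T := h10.trans hT3
  rw [div_lt_iff₀ (by positivity)] at hT3 hT4
  have h2 : 1 < s * (s * T - 1) := by nlinarith
  have h3 : 0 < s * T - 1 := by
    by_contra hc
    have : s * (s * T - 1) ≤ 0 := mul_nonpos_of_nonneg_of_nonpos hs0.le (not_lt.mp hc)
    linarith
  have h4 : 1 / (s * T - 1) < s := by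
    rw [div_lt_iff₀ h3]
    linarith
  have h5 : 1 / T < s := by
    rw [div_lt_iff₀ hT0]
    linarith
  have h6 : 1 / (T * w) < s := by
    rw [div_lt_iff₀ (by positivity)]
    linarith
  obtain ⟨S, hS1, hS2, hS3⟩ := exists_rat_between hs (max_lt h4 (max_lt h5 h6))
  have hS4 := (le_max_left _ _).trans_lt hS3
  have hS5 := ((le_max_left _ _).trans (le_max_right _ _)).trans_lt hS3
  have hS6 := ((le_max_right _ _).trans (le_max_right _ _)).trans_lt hS3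
  rw [div_lt_iff₀ h3] at hS4
  rw [div_lt_iff₀ hT0] at hS5
  rw [div_lt_iff₀ (by positivity)] at hS6
  have hS0 : (0 : ℝ) < S := zero_lt_one.trans_le hS1
  obtain ⟨a, b, p, q, hb, hab, hq, hp, h7, h8, h9, h10⟩ :=
    exists_nums_aux hS1 hS2 hT0 hT2.le hS5.le
  refine ⟨a, b, p, q, hb, hab, hq, hp, h7, h8, ?_, ?_, ?_⟩
  · rw [h9, h10, div_add_div _ _ (by positivity) (by positivity), div_le_iff₀ (by positivity)]
    nlinarith [mul_pos hS0 hT0, mul_pos hT0 hT0]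
  · rw [h9, h10]
    apply one_div_le_one_div_of_le hT0
    nlinarith
  · rw [h9, div_le_iff₀ (by positivity)]
    linarith

theorem exists_nums_adv {s t α : ℝ} (hs : 1 ≤ s) (hst : 1 < s * t) (hα : 1 < s * t * α) :
    ∃ a b p q : ℕ, 1 ≤ b ∧ b ≤ a ∧ 1 ≤ q ∧ 1 ≤ p ∧ (p : ℝ) / q ≤ t ∧
      ((a : ℝ) * q) / (b * p) ≤ s ∧ (b : ℝ) / a ≤ α := by
  have hs0 : 0 < s := zero_lt_one.trans_le hs
  have hα0 : 0 < α := by
    by_contra h
    have h2 : s * t * α ≤ 0 := mul_nonpos_of_nonneg_of_nonpos (by linarith) (not_lt.1 h)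
    linarith
  have h1 : 1 / s < t := by
    rw [div_lt_iff₀ hs0]
    linarith
  have h11 : 1 / (s * α) < t := by
    rw [div_lt_iff₀ (by positivity)]
    linarith
  obtain ⟨T, hT1, hT2⟩ := exists_rat_btwn (max_lt h1 h11)
  have hT3 := (le_max_left _ _).trans_lt hT1
  have hT4 := (le_max_right _ _).trans_lt hT1
  have hT0 : (0 : ℝ) < T := (by positivity : (0 : ℝ) < 1 / s).trans hT3
  rw [div_lt_iff₀ (by positivity)] at hT3 hT4
  have h5 : 1 / T < s := by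
    rw [div_lt_iff₀ hT0]
    linarith
  have h6 : 1 / (T * α) < s := by
    rw [div_lt_iff₀ (by positivity)]
    linarith
  obtain ⟨S, hS1, hS2, hS3⟩ := exists_rat_between hs (max_lt h5 h6)
  have hS5 := (le_max_left _ _).trans_lt hS3
  have hS6 := (le_max_right _ _).trans_lt hS3
  rw [div_lt_iff₀ hT0] at hS5
  rw [div_lt_iff₀ (by positivity)] at hS6
  have hS0 : (0 : ℝ) < S := zero_lt_one.trans_le hS1
  obtain ⟨a, b, p, q, hb, hab, hq, hp, h7, h8, h9, -⟩ :=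
    exists_nums_aux hS1 hS2 hT0 hT2.le hS5.le
  refine ⟨a, b, p, q, hb, hab, hq, hp, h7, h8, ?_⟩
  rw [h9, div_le_iff₀ (by positivity)]
  linarith

end Pool.Agent.PFP
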